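import Mathlib

/-!
# General d, VT: inclusion-exclusion

PROOF of `inc_exc`: expand the products (`Finset.prod_add` / `Finset.prod_one_add`), exchange the sums; for a
set `Y` of objects the sum of the signs over the `I' ⊆ I` disjoint from all `sp x`, `x ∈ Y`, is `0` unless
`I ⊆ Y.biUnion sp`, when it is `1` (`Finset.sum_powerset_neg_one_pow_card`).
-/

set_option autoImplicit false

namespace Pool.Agent.GD.VT

open Finset

theorem inc_exc {R X : Type} [CommRing R] [DecidableEq X] (s : Finset X) (sp : X → Finset ℕ)
    (g : X → R) (I : Finset ℕ) :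
    ∑ I' ∈ I.powerset, (-1) ^ I'.card *
        ∏ x ∈ s, (if Disjoint (sp x) I' then 1 + g x else 1) =
      ∑ Y ∈ s.powerset.filter (fun Y => I ⊆ Y.biUnion sp), ∏ x ∈ Y, g x := by
  have h1 : ∀ I' : Finset ℕ, ∏ x ∈ s, (if Disjoint (sp x) I' then 1 + g x else 1) =
      ∑ Y ∈ s.powerset, if Disjoint (Y.biUnion sp) I' then ∏ x ∈ Y, g x else 0 := by
    intro I'
    have h2 : ∀ x, (if Disjoint (sp x) I' then 1 + g x else 1) =
        1 + if Disjoint (sp x) I' then g x else 0 := by
      intro x
      split_ifs
      · rfl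
      · rw [add_zero]
    rw [prod_congr rfl fun x _ => h2 x, prod_one_add]
    refine sum_congr rfl fun Y _ => ?_
    by_cases h : Disjoint (Y.biUnion sp) I'
    · rw [if_pos h]
      exact prod_congr rfl fun x hx => if_pos ((disjoint_biUnion_left _ _ _).1 h x hx)
    · rw [if_neg h]
      rw [disjoint_biUnion_left] at h
      push Not at h
      obtain ⟨x, hx, hd⟩ := h
      exact prod_eq_zero hx (if_neg hd)
  calc ∑ I' ∈ I.powerset, (-1) ^ I'.card *
        ∏ x ∈ s, (if Disjoint (sp x) I' then 1 + g x else 1) =
      ∑ I' ∈ I.powerset, ∑ Y ∈ s.powerset,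
        (if Disjoint (Y.biUnion sp) I' then (-1) ^ I'.card else 0) * ∏ x ∈ Y, g x := by
        refine sum_congr rfl fun I' _ => ?_
        rw [h1, mul_sum]
        refine sum_congr rfl fun Y _ => ?_
        split_ifs
        · rfl
        · rw [mul_zero, zero_mul]
    _ = ∑ Y ∈ s.powerset, (if I ⊆ Y.biUnion sp then 1 else 0) * ∏ x ∈ Y, g x := by
        rw [sum_comm]
        refine sum_congr rfl fun Y _ => ?_
        rw [← sum_mul]
        congr 1
        rw [← sum_filter]
        have h3 : I.powerset.filter (fun I' => Disjoint (Y.biUnion sp) I') =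
            (I \ Y.biUnion sp).powerset := by
          ext I'
          rw [mem_filter, mem_powerset, mem_powerset, subset_sdiff, disjoint_comm]
        have h4 := sum_powerset_neg_one_pow_card (x := I \ Y.biUnion sp)
        rw [h3]
        have h5 : (∑ I' ∈ (I \ Y.biUnion sp).powerset, (-1 : R) ^ I'.card) =
            ((∑ I' ∈ (I \ Y.biUnion sp).powerset, (-1 : ℤ) ^ I'.card : ℤ) : R) := by
          push_cast
          rfl
        rw [h5, h4]
        by_cases h : I ⊆ Y.biUnion sp
        · rw [if_pos h, if_pos (sdiff_eq_empty_iff_subset.2 h), Int.cast_one]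
        · rw [if_neg h, if_neg (fun h6 => h (sdiff_eq_empty_iff_subset.1 h6)), Int.cast_zero]
    _ = _ := by
        rw [sum_filter]
        refine sum_congr rfl fun Y _ => ?_
        split_ifs
        · rw [one_mul]
        · rw [zero_mul]

end Pool.Agent.GD.VT
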