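import Mathlib

/-!
# General d, VT: the calculus of types

A power series `A` (depending on `n`) has the type `s` (with the constant `C`, up to degree `d`) if
`|[t^D] A| ≤ C n ^ (D - s)` for `D ≤ d` (integer powers, `n ≥ 1`).
-/

set_option autoImplicit false

namespace Pool.Agent.GD.VT

open Finset PowerSeries

/-- Type `s` with the constant `C`. -/
def Ty (d n : ℕ) (s : ℤ) (C : ℝ) (A : PowerSeries ℝ) : Prop :=
  ∀ D ≤ d, |coeff D A| ≤ C * (n : ℝ) ^ ((D : ℤ) - s)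

/-- `exp (a t^b)`. -/
noncomputable def ex (a : ℝ) (b : ℕ) : PowerSeries ℝ :=
  PowerSeries.mk fun D => if b ∣ D then a ^ (D / b) / (D / b).factorial else 0

/-- `(1 - t)^(-N)`. -/
noncomputable def hr (N : ℕ) : PowerSeries ℝ := PowerSeries.mk fun k => (Nat.multichoose N k : ℝ)

theorem Ty.mono {d n : ℕ} (hn : 1 ≤ n) {s s' : ℤ} {C C' : ℝ} {A : PowerSeries ℝ} (hs : s' ≤ s)
    (hC : C ≤ C') (hC0 : 0 ≤ C) (h : Ty d n s C A) : Ty d n s' C' A := by
  intro D hD
  have h1 : (1 : ℝ) ≤ n := by exact_mod_cast hn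
  have h2 : (n : ℝ) ^ ((D : ℤ) - s) ≤ (n : ℝ) ^ ((D : ℤ) - s') :=
    zpow_le_zpow_right₀ h1 (by omega)
  exact (h D hD).trans (mul_le_mul hC h2 (zpow_nonneg (by positivity) _) (hC0.trans hC))

theorem Ty.add {d n : ℕ} {s : ℤ} {C C' : ℝ} {A B : PowerSeries ℝ} (h : Ty d n s C A)
    (h' : Ty d n s C' B) : Ty d n s (C + C') (A + B) := by
  intro D hD
  rw [map_add, add_mul]
  exact (abs_add_le _ _).trans (add_le_add (h D hD) (h' D hD))

theorem Ty.neg {d n : ℕ} {s : ℤ} {C : ℝ} {A : PowerSeries ℝ} (h : Ty d n s C A) :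
    Ty d n s C (-A) := by
  intro D hD
  rw [map_neg, abs_neg]
  exact h D hD

theorem Ty.mul {d n : ℕ} (hn : 1 ≤ n) {s s' : ℤ} {C C' : ℝ} (hC : 0 ≤ C) (hC' : 0 ≤ C')
    {A B : PowerSeries ℝ} (h : Ty d n s C A) (h' : Ty d n s' C' B) :
    Ty d n (s + s') ((d + 1) * C * C') (A * B) := by
  intro D hD
  have h1 : (0 : ℝ) < n := by exact_mod_cast hn
  rw [PowerSeries.coeff_mul]
  have h2 : ∀ ij ∈ antidiagonal D, |coeff ij.1 A * coeff ij.2 B| ≤
      C * C' * (n : ℝ) ^ ((D : ℤ) - (s + s')) := by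
    intro ij hij
    have h3 := mem_antidiagonal.1 hij
    rw [abs_mul]
    have h4 := mul_le_mul (h ij.1 (by omega)) (h' ij.2 (by omega)) (abs_nonneg _)
      (mul_nonneg hC (zpow_nonneg h1.le _))
    refine h4.trans (le_of_eq ?_)
    have h5 : (n : ℝ) ^ ((ij.1 : ℤ) - s) * (n : ℝ) ^ ((ij.2 : ℤ) - s') =
        (n : ℝ) ^ ((D : ℤ) - (s + s')) := by
      rw [← zpow_add₀ h1.ne']
      congr 1
      omega
    rw [← h5]
    ring
  refine (abs_sum_le_sum_abs _ _).trans ((sum_le_card_nsmul _ _ _ h2).trans ?_)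
  rw [Nat.card_antidiagonal, nsmul_eq_mul]
  have h6 : ((D + 1 : ℕ) : ℝ) ≤ d + 1 := by
    push_cast
    have : (D : ℝ) ≤ d := by exact_mod_cast hD
    linarith
  calc ((D + 1 : ℕ) : ℝ) * (C * C' * (n : ℝ) ^ ((D : ℤ) - (s + s'))) ≤
      (d + 1) * (C * C' * (n : ℝ) ^ ((D : ℤ) - (s + s'))) :=
        mul_le_mul_of_nonneg_right h6 (mul_nonneg (mul_nonneg hC hC') (zpow_nonneg h1.le _))
    _ = _ := by ring

theorem Ty.one {d n : ℕ} (hn : 1 ≤ n) : Ty d n 0 1 1 := by
  intro D _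
  rw [PowerSeries.coeff_one]
  split_ifs with h
  · subst h
    simp
  · rw [abs_zero, one_mul]
    positivity

private theorem Ty.zero {d n : ℕ} (s : ℤ) {C : ℝ} (hC : 0 ≤ C) : Ty d n s C 0 := by
  intro D _
  rw [map_zero, abs_zero]
  positivity

private theorem Ty.congr {d n : ℕ} {s s' : ℤ} {C C' : ℝ} {A A' : PowerSeries ℝ}
    (h : Ty d n s C A) (hs : s = s') (hC : C = C') (hA : A = A') : Ty d n s' C' A' := by
  subst hs hC hA
  exact h

/-- Products: type of the product, and the product changes by the next type if the factors do. -/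
theorem Ty.prod {X : Type} {d : ℕ} (s : Finset X) (ty : X → ℤ) (C : ℝ) (hC : 1 ≤ C) :
    ∃ C' : ℝ, 1 ≤ C' ∧ ∀ n, 1 ≤ n → ∀ A B : X → PowerSeries ℝ,
      (∀ x ∈ s, Ty d n (ty x) C (A x)) → (∀ x ∈ s, Ty d n (ty x + 1) C (A x - B x)) →
      Ty d n (∑ x ∈ s, ty x) C' (∏ x ∈ s, A x) ∧
        Ty d n (∑ x ∈ s, ty x + 1) C' (∏ x ∈ s, A x - ∏ x ∈ s, B x) := by
  classical
  induction s using Finset.induction_on with
  | empty =>
    refine ⟨1, le_refl _, fun n hn A B _ _ => ⟨?_, ?_⟩⟩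
    · rw [sum_empty, prod_empty]
      exact Ty.one hn
    · rw [prod_empty, prod_empty, sub_self]
      exact Ty.zero _ zero_le_one
  | insert a s ha ih =>
    obtain ⟨C', hC', h⟩ := ih
    have hC0 : 0 ≤ C := zero_le_one.trans hC
    have hC0' : 0 ≤ C' := zero_le_one.trans hC'
    have hd : (1 : ℝ) ≤ d + 1 := by
      have : (0 : ℝ) ≤ d := Nat.cast_nonneg d
      linarith
    refine ⟨(d + 1) * C * C' + (d + 1) * C * (C' + C'), ?_, fun n hn A B hA hB => ?_⟩
    · have h1 : 1 ≤ (d + 1) * C * C' := one_le_mul_of_one_le_of_one_le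
        (one_le_mul_of_one_le_of_one_le hd hC) hC'
      have h2 : 0 ≤ (d + 1) * C * (C' + C') := by positivity
      linarith
    · obtain ⟨h1, h2⟩ := h n hn A B (fun x hx => hA x (mem_insert_of_mem hx))
        (fun x hx => hB x (mem_insert_of_mem hx))
      rw [sum_insert ha, prod_insert ha, prod_insert ha]
      have e1 := hA a (mem_insert_self _ _)
      have e2 := hB a (mem_insert_self _ _)
      have hBp : Ty d n (∑ x ∈ s, ty x) (C' + C') (∏ x ∈ s, B x) := by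
        have h3 : Ty d n (∑ x ∈ s, ty x) C' (-(∏ x ∈ s, A x - ∏ x ∈ s, B x)) :=
          (h2.mono hn (by omega) le_rfl hC0').neg
        exact (h1.add h3).congr rfl rfl (by ring)
      constructor
      · refine (Ty.mul hn hC0 hC0' e1 h1).mono hn le_rfl ?_ (by positivity)
        have : 0 ≤ (d + 1) * C * (C' + C') := by positivity
        linarith
      · have h4 := Ty.mul hn hC0 hC0' e1 h2
        have h5 := Ty.mul hn hC0 (by linarith) e2 hBp
        refine ((h4.congr (by ring) rfl rfl).add (h5.congr (by ring) rfl rfl)).congr rfl rfl ?_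
        ring

/-! ### Series in `t^x` -/

/-- `∑ c m t^(x m)` -/
private noncomputable def spr (x : ℕ) (c : ℕ → ℝ) : PowerSeries ℝ :=
  PowerSeries.mk fun D => if x ∣ D then c (D / x) else 0

private theorem spr_sub (x : ℕ) (c c' : ℕ → ℝ) : spr x c - spr x c' = spr x fun m => c m - c' m := by
  ext D
  rw [map_sub, spr, spr, spr, coeff_mk, coeff_mk, coeff_mk]
  split_ifs
  · rfl
  · rw [sub_zero]

private theorem spr_one (x : ℕ) (hx : 1 ≤ x) : spr x (fun m => if m = 0 then 1 else 0) = 1 := by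
  ext D
  rw [spr, coeff_mk, PowerSeries.coeff_one]
  by_cases hD : D = 0
  · subst hD
    simp
  · rw [if_neg hD]
    by_cases h : x ∣ D
    · rw [if_pos h, if_neg]
      intro h0
      obtain ⟨m, rfl⟩ := h
      rw [Nat.mul_div_cancel_left m (by omega)] at h0
      apply hD
      rw [h0, mul_zero]
    · rw [if_neg h]

private theorem ty_spr {d n x : ℕ} {s : ℤ} {C : ℝ} (hx : 1 ≤ x) (hC : 0 ≤ C) {c : ℕ → ℝ}
    (h : ∀ m, x * m ≤ d → |c m| ≤ C * (n : ℝ) ^ (((x * m : ℕ) : ℤ) - s)) :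
    Ty d n s C (spr x c) := by
  intro D hD
  rw [spr, coeff_mk]
  split_ifs with hxD
  · obtain ⟨m, rfl⟩ := hxD
    rw [Nat.mul_div_cancel_left m (by omega)]
    exact h m hD
  · rw [abs_zero]
    positivity

private theorem X_pow_mul_spr (x : ℕ) (hx : 1 ≤ x) (c : ℕ → ℝ) :
    (X ^ x : PowerSeries ℝ) * spr x c = spr x fun m => if m = 0 then 0 else c (m - 1) := by
  ext D
  simp only [PowerSeries.coeff_X_pow_mul', spr, coeff_mk]
  by_cases h : x ∣ D
  · obtain ⟨m, rfl⟩ := h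
    rw [if_pos (Dvd.intro _ rfl), Nat.mul_div_cancel_left m (by omega)]
    rcases m with _ | m
    · rw [mul_zero, if_neg (by omega), if_pos rfl]
    · have e : x * (m + 1) - x = x * m := by
        rw [mul_add, mul_one, Nat.add_sub_cancel]
      rw [if_pos (Nat.le_mul_of_pos_right x (Nat.succ_pos m)), e,
        if_pos (Dvd.intro _ rfl), Nat.mul_div_cancel_left m (by omega), if_neg (Nat.succ_ne_zero m),
        Nat.add_sub_cancel]
  · rw [if_neg h]
    by_cases hle : x ≤ D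
    · rw [if_pos hle, if_neg]
      intro h1
      apply h
      have h2 := (Nat.dvd_add_self_right (m := x) (n := D - x)).2 h1
      rwa [Nat.sub_add_cancel hle] at h2
    · rw [if_neg hle]

private theorem pow_eq_spr (x : ℕ) (hx : 1 ≤ x) (N : ℕ) :
    ((1 - X ^ x) ^ N : PowerSeries ℝ) = spr x fun m => (-1) ^ m * (Nat.choose N m : ℝ) := by
  induction N with
  | zero =>
    rw [pow_zero, ← spr_one x hx]
    congr 1
    funext m
    rcases m with _ | m
    · simp
    · simp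
  | succ N ih =>
    rw [pow_succ', sub_mul, one_mul, ih, X_pow_mul_spr x hx, spr_sub]
    congr 1
    funext m
    rcases m with _ | m
    · simp
    · rw [if_neg (Nat.succ_ne_zero m), Nat.add_sub_cancel, Nat.choose_succ_succ]
      push_cast
      ring

private theorem inv_spr (x N : ℕ) (hx : 1 ≤ x) : ((1 - X ^ x) ^ N : PowerSeries ℝ) *
    spr x (fun m => (Nat.multichoose N m : ℝ)) = 1 := by
  induction N with
  | zero =>
    rw [pow_zero, one_mul, ← spr_one x hx]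
    congr 1
    funext m
    rcases m with _ | m
    · simp
    · rw [Nat.multichoose_zero_succ, if_neg (Nat.succ_ne_zero m), Nat.cast_zero]
  | succ N ih =>
    rw [pow_succ, mul_assoc]
    have e : (1 - X ^ x : PowerSeries ℝ) * spr x (fun m => (Nat.multichoose (N + 1) m : ℝ)) =
        spr x (fun m => (Nat.multichoose N m : ℝ)) := by
      rw [sub_mul, one_mul, X_pow_mul_spr x hx, spr_sub]
      congr 1
      funext m
      rcases m with _ | m
      · simp
      · rw [if_neg (Nat.succ_ne_zero m), Nat.add_sub_cancel, Nat.multichoose_succ_succ]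
        push_cast
        ring
    rw [e, ih]

/-- telescoping -/
private theorem tele (z : ℕ → ℝ) (y M c : ℝ) (m : ℕ) (hM : 0 ≤ M) (hc : 0 ≤ c) (hy : |y| ≤ M)
    (hz : ∀ i < m, |z i| ≤ M) (hzy : ∀ i < m, |z i - y| ≤ c) :
    |∏ i ∈ range m, z i| ≤ M ^ m ∧ M * |∏ i ∈ range m, z i - y ^ m| ≤ m * c * M ^ m := by
  induction m with
  | zero => simp
  | succ m ih =>
    obtain ⟨h1, h2⟩ := ih (fun i hi => hz i (by omega)) (fun i hi => hzy i (by omega))
    rw [prod_range_succ]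
    constructor
    · rw [abs_mul, pow_succ]
      exact mul_le_mul h1 (hz m (by omega)) (abs_nonneg _) (pow_nonneg hM _)
    · have e : (∏ i ∈ range m, z i) * z m - y ^ (m + 1) =
          (∏ i ∈ range m, z i) * (z m - y) + (∏ i ∈ range m, z i - y ^ m) * y := by ring
      rw [e]
      have h3 : |(∏ i ∈ range m, z i) * (z m - y)| ≤ M ^ m * c := by
        rw [abs_mul]
        exact mul_le_mul h1 (hzy m (by omega)) (abs_nonneg _) (pow_nonneg hM _)
      have h4 : M * |(∏ i ∈ range m, z i - y ^ m) * y| ≤ m * c * M ^ m * M := by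
        rw [abs_mul, ← mul_assoc]
        exact mul_le_mul h2 hy (abs_nonneg _) (by positivity)
      calc M * |(∏ i ∈ range m, z i) * (z m - y) + (∏ i ∈ range m, z i - y ^ m) * y| ≤
          M * (|(∏ i ∈ range m, z i) * (z m - y)| + |(∏ i ∈ range m, z i - y ^ m) * y|) :=
            mul_le_mul_of_nonneg_left (abs_add_le _ _) hM
        _ = M * |(∏ i ∈ range m, z i) * (z m - y)| + M * |(∏ i ∈ range m, z i - y ^ m) * y| := by
            ring
        _ ≤ M * (M ^ m * c) + m * c * M ^ m * M :=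
            add_le_add (mul_le_mul_of_nonneg_left h3 hM) h4
        _ = _ := by
            push_cast
            ring

private theorem fact_div {a b : ℝ} {m : ℕ} (h : |a| ≤ b) : |a / (m.factorial : ℝ)| ≤ b := by
  have h1 : (1 : ℝ) ≤ (m.factorial : ℝ) := by
    exact_mod_cast Nat.one_le_iff_ne_zero.2 m.factorial_ne_zero
  rw [abs_div, abs_of_pos (by linarith : (0 : ℝ) < (m.factorial : ℝ))]
  exact (div_le_self (abs_nonneg _) h1).trans h

private theorem choose_near (N m : ℕ) (M : ℝ) (hM : (N : ℝ) ≤ M) :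
    |(Nat.choose N m : ℝ)| ≤ M ^ m ∧
      M * |(Nat.choose N m : ℝ) - (N : ℝ) ^ m / (m.factorial : ℝ)| ≤ m * m * M ^ m := by
  have hN : (0 : ℝ) ≤ N := Nat.cast_nonneg N
  have hM0 : 0 ≤ M := hN.trans hM
  have hf : (m.factorial : ℝ) ≠ 0 := by exact_mod_cast m.factorial_ne_zero
  obtain ⟨h1, h2⟩ := tele (fun i => ((N - i : ℕ) : ℝ)) N M m m hM0 (Nat.cast_nonneg m)
    (by rw [abs_of_nonneg hN]; exact hM)
    (fun i _ => by
      rw [abs_of_nonneg (Nat.cast_nonneg _)]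
      exact (by exact_mod_cast Nat.sub_le N i : ((N - i : ℕ) : ℝ) ≤ N).trans hM)
    (fun i hi => by
      have h3 : ((N - i : ℕ) : ℝ) ≤ N := by exact_mod_cast Nat.sub_le N i
      have h4 : (N : ℝ) ≤ ((N - i : ℕ) : ℝ) + i := by exact_mod_cast (by omega : N ≤ N - i + i)
      have h5 : (i : ℝ) ≤ m := by exact_mod_cast hi.le
      rw [abs_le]
      constructor <;> linarith)
  have e : (∏ i ∈ range m, ((N - i : ℕ) : ℝ)) = m.factorial * (Nat.choose N m : ℝ) := by
    rw [← Nat.cast_prod, ← Nat.descFactorial_eq_prod_range, Nat.descFactorial_eq_factorial_mul_choose]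
    push_cast
    ring
  rw [e] at h1 h2
  constructor
  · have h3 := fact_div (m := m) h1
    rwa [mul_div_cancel_left₀ _ hf] at h3
  · have h3 : |M * (m.factorial * (Nat.choose N m : ℝ) - (N : ℝ) ^ m)| ≤ m * m * M ^ m := by
      rw [abs_mul, abs_of_nonneg hM0]
      exact h2
    have h4 := fact_div (m := m) h3
    rw [mul_div_assoc, sub_div, mul_div_cancel_left₀ _ hf, abs_mul, abs_of_nonneg hM0] at h4
    exact h4

private theorem multi_near (N m : ℕ) (y M c : ℝ) (hy : |y| ≤ M) (hc : 0 ≤ c)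
    (hM : (N : ℝ) + m ≤ M) (h : ∀ i < m, |(N : ℝ) + i - y| ≤ c) :
    |(Nat.multichoose N m : ℝ)| ≤ M ^ m ∧
      M * |(Nat.multichoose N m : ℝ) - y ^ m / (m.factorial : ℝ)| ≤ m * c * M ^ m := by
  have hN : (0 : ℝ) ≤ N := Nat.cast_nonneg N
  have hm : (0 : ℝ) ≤ m := Nat.cast_nonneg m
  have hM0 : 0 ≤ M := by linarith
  have hf : (m.factorial : ℝ) ≠ 0 := by exact_mod_cast m.factorial_ne_zero
  obtain ⟨h1, h2⟩ := tele (fun i => ((N + i : ℕ) : ℝ)) y M c m hM0 hc hy
    (fun i hi => by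
      have h5 : (i : ℝ) ≤ m := by exact_mod_cast hi.le
      rw [abs_of_nonneg (Nat.cast_nonneg _)]
      push_cast
      linarith)
    (fun i hi => by
      push_cast
      exact h i hi)
  have e : (∏ i ∈ range m, ((N + i : ℕ) : ℝ)) = m.factorial * (Nat.multichoose N m : ℝ) := by
    rw [← Nat.cast_prod, ← Nat.ascFactorial_eq_prod_range, Nat.ascFactorial_eq_factorial_mul_choose',
      Nat.multichoose_eq]
    push_cast
    ring
  rw [e] at h1 h2
  constructor
  · have h3 := fact_div (m := m) h1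
    rwa [mul_div_cancel_left₀ _ hf] at h3
  · have h3 : |M * (m.factorial * (Nat.multichoose N m : ℝ) - y ^ m)| ≤ m * c * M ^ m := by
      rw [abs_mul, abs_of_nonneg hM0]
      exact h2
    have h4 := fact_div (m := m) h3
    rw [mul_div_assoc, sub_div, mul_div_cancel_left₀ _ hf, abs_mul, abs_of_nonneg hM0] at h4
    exact h4

/-- division by `n` -/
private theorem le_zpow {n : ℕ} (hn : 1 ≤ n) {t K : ℝ} {m : ℕ} (h : n * t ≤ K * (n : ℝ) ^ m) :
    t ≤ K * (n : ℝ) ^ ((m : ℤ) - 1) := by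
  have h1 : (0 : ℝ) < n := by exact_mod_cast hn
  rw [zpow_sub₀ h1.ne', zpow_one, zpow_natCast, ← mul_div_assoc, le_div_iff₀ h1, mul_comm]
  exact h

private theorem pw {d m : ℕ} {B q : ℝ} (hB : 1 ≤ B) (hq : 0 ≤ q) (hm : m ≤ d) :
    (B * q) ^ m ≤ B ^ d * q ^ m := by
  rw [mul_pow]
  exact mul_le_mul_of_nonneg_right (pow_le_pow_right₀ hB hm) (pow_nonneg hq _)

private theorem npow_le {n : ℕ} (hn : 1 ≤ n) {q : ℕ} {e : ℤ} (h : (q : ℤ) ≤ e) :
    (n : ℝ) ^ q ≤ (n : ℝ) ^ e := by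
  rw [← zpow_natCast]
  exact zpow_le_zpow_right₀ (by exact_mod_cast hn) h

private theorem spr_add (x : ℕ) (c c' : ℕ → ℝ) : spr x c + spr x c' = spr x fun m => c m + c' m := by
  ext D
  rw [map_add, spr, spr, spr, coeff_mk, coeff_mk, coeff_mk]
  split_ifs
  · rfl
  · rw [add_zero]

private theorem C_mul_X_pow (x : ℕ) (hx : 1 ≤ x) (a : ℝ) :
    PowerSeries.C a * X ^ x = spr x fun m => if m = 1 then a else 0 := by
  ext D
  rw [PowerSeries.coeff_C_mul, PowerSeries.coeff_X_pow, spr, coeff_mk]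
  by_cases h : x ∣ D
  · obtain ⟨m, rfl⟩ := h
    rw [if_pos (Dvd.intro _ rfl), Nat.mul_div_cancel_left m (by omega)]
    by_cases hm : m = 1
    · rw [if_pos hm, hm, mul_one, if_pos rfl, mul_one]
    · rw [if_neg hm, if_neg, mul_zero]
      intro h1
      apply hm
      exact Nat.eq_of_mul_eq_mul_left (by omega : 0 < x) (h1.trans (mul_one x).symm)
  · rw [if_neg h, if_neg, mul_zero]
    rintro rfl
    exact h (dvd_refl _)

private theorem hr_eq (N : ℕ) : hr N = spr 1 fun m => (Nat.multichoose N m : ℝ) := by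
  ext D
  rw [hr, spr, coeff_mk, coeff_mk, if_pos (one_dvd D), Nat.div_one]

/-- The variables: `(1 - t)^(-(n - a))` is `exp (n t)` modulo the type `1`. -/
theorem ty_hr (d a : ℕ) : ∃ C : ℝ, 1 ≤ C ∧ ∀ n, 1 ≤ n → a ≤ n →
    Ty d n 0 C (hr (n - a)) ∧ Ty d n 1 C (hr (n - a) - ex n 1) := by
  have hd0 : (0 : ℝ) ≤ d := Nat.cast_nonneg d
  have ha0 : (0 : ℝ) ≤ a := Nat.cast_nonneg a
  have hB : (1 : ℝ) ≤ 1 + d := by linarith
  have hq : (0 : ℝ) ≤ d * (a + d) := by positivity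
  have hp : (1 : ℝ) ≤ (1 + d) ^ d := one_le_pow₀ hB
  refine ⟨(1 + d * (a + d)) * (1 + d) ^ d,
    one_le_mul_of_one_le_of_one_le (by linarith) hp, fun n hn han => ?_⟩
  have hn1 : (1 : ℝ) ≤ n := by exact_mod_cast hn
  have hn0 : (0 : ℝ) ≤ n := by linarith
  have key : ∀ m ≤ d, |(Nat.multichoose (n - a) m : ℝ)| ≤ ((1 + d) * n) ^ m ∧
      (1 + d) * n * |(Nat.multichoose (n - a) m : ℝ) - (n : ℝ) ^ m / (m.factorial : ℝ)| ≤
        m * (a + d) * ((1 + d) * n) ^ m := by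
    intro m hm
    have hmd : (m : ℝ) ≤ d := by exact_mod_cast hm
    have hsub : ((n - a : ℕ) : ℝ) = n - a := Nat.cast_sub han
    refine multi_near (n - a) m n ((1 + d) * n) (a + d) ?_ (by positivity) ?_ ?_
    · rw [abs_of_nonneg hn0]
      nlinarith
    · rw [hsub]
      nlinarith
    · intro i hi
      have hid : (i : ℝ) ≤ d := by
        have : (i : ℝ) ≤ m := by exact_mod_cast hi.le
        linarith
      have hi0 : (0 : ℝ) ≤ i := Nat.cast_nonneg i
      rw [hsub, abs_le]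
      constructor <;> linarith
  constructor
  · rw [hr_eq]
    refine ty_spr le_rfl (by positivity) fun m hm => ?_
    rw [one_mul] at hm ⊢
    refine ((key m hm).1.trans (pw hB hn0 hm)).trans ?_
    rw [sub_zero, zpow_natCast]
    refine mul_le_mul_of_nonneg_right ?_ (by positivity)
    nlinarith
  · have e2 : ex n 1 = spr 1 fun m => (n : ℝ) ^ m / (m.factorial : ℝ) := rfl
    rw [hr_eq, e2, spr_sub]
    refine ty_spr le_rfl (by positivity) fun m hm => ?_
    rw [one_mul] at hm ⊢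
    refine le_zpow hn ?_
    have hmd : (m : ℝ) ≤ d := by exact_mod_cast hm
    have h1 := (key m hm).2
    have h2 : (n : ℝ) * |(Nat.multichoose (n - a) m : ℝ) - (n : ℝ) ^ m / (m.factorial : ℝ)| ≤
        (1 + d) * n * |(Nat.multichoose (n - a) m : ℝ) - (n : ℝ) ^ m / (m.factorial : ℝ)| :=
      mul_le_mul_of_nonneg_right (by nlinarith) (abs_nonneg _)
    have h3 : (m : ℝ) * (a + d) * ((1 + d) * n) ^ m ≤ d * (a + d) * ((1 + d) ^ d * n ^ m) :=
      mul_le_mul (mul_le_mul_of_nonneg_right hmd (by positivity)) (pw hB hn0 hm)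
        (by positivity) (by positivity)
    calc _ ≤ _ := h2.trans (h1.trans h3)
      _ = d * (a + d) * (1 + d) ^ d * n ^ m := by ring
      _ ≤ _ := by
        refine mul_le_mul_of_nonneg_right ?_ (by positivity)
        nlinarith

/-- The variables of a block: `(1 - t)^(-c) - 1` is `c t` modulo the type `2`. -/
theorem ty_blk (d c : ℕ) : ∃ C : ℝ, 1 ≤ C ∧ ∀ n, 1 ≤ n →
    Ty d n 1 C (hr c - 1) ∧ Ty d n 2 C (hr c - 1 - PowerSeries.C (c : ℝ) * X) := by
  have hd0 : (0 : ℝ) ≤ d := Nat.cast_nonneg d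
  have hc0 : (0 : ℝ) ≤ c := Nat.cast_nonneg c
  have hB : (1 : ℝ) ≤ 1 + c + d := by linarith
  refine ⟨(1 + c + d) ^ d, one_le_pow₀ hB, fun n hn => ?_⟩
  have hn1 : (1 : ℝ) ≤ n := by exact_mod_cast hn
  have key : ∀ m ≤ d, |(Nat.multichoose c m : ℝ)| ≤ (1 + c + d) ^ d := by
    intro m hm
    have hmd : (m : ℝ) ≤ d := by exact_mod_cast hm
    refine (multi_near c m c (1 + c + d) d ?_ hd0 (by linarith) ?_).1.trans
      (pow_le_pow_right₀ hB hm)
    · rw [abs_of_nonneg hc0]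
      linarith
    · intro i hi
      have hid : (i : ℝ) ≤ d := by
        have : (i : ℝ) ≤ m := by exact_mod_cast hi.le
        linarith
      rw [add_sub_cancel_left, abs_of_nonneg (Nat.cast_nonneg i)]
      exact hid
  have hge : ∀ e : ℤ, 0 ≤ e → (1 : ℝ) ≤ (n : ℝ) ^ e := fun e he => one_le_zpow₀ hn1 he
  have e1 : hr c - 1 = spr 1 fun m => (Nat.multichoose c m : ℝ) - if m = 0 then 1 else 0 := by
    rw [hr_eq, ← spr_one 1 le_rfl, spr_sub]
  constructor
  · rw [e1]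
    refine ty_spr le_rfl (by positivity) fun m hm => ?_
    rw [one_mul] at hm ⊢
    rcases m with _ | m
    · rw [Nat.multichoose_zero_right, if_pos rfl, Nat.cast_one, sub_self, abs_zero]
      positivity
    · rw [if_neg (Nat.succ_ne_zero m), sub_zero]
      refine (key _ hm).trans (le_mul_of_one_le_right (by positivity) (hge _ ?_))
      push_cast
      omega
  · have e2 : hr c - 1 - PowerSeries.C (c : ℝ) * X = spr 1 fun m =>
        (Nat.multichoose c m : ℝ) - (if m = 0 then 1 else 0) - if m = 1 then (c : ℝ) else 0 := by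
      have h1 := C_mul_X_pow 1 le_rfl (c : ℝ)
      rw [pow_one] at h1
      rw [e1, h1, spr_sub]
    rw [e2]
    refine ty_spr le_rfl (by positivity) fun m hm => ?_
    rw [one_mul] at hm ⊢
    rcases m with _ | _ | m
    · simp only [Nat.multichoose_zero_right, if_true, Nat.cast_one, sub_self, zero_ne_one,
        if_false, abs_zero]
      positivity
    · simp only [zero_add, Nat.multichoose_one_right, one_ne_zero, if_false, if_true, sub_zero,
        sub_self, abs_zero]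
      positivity
    · rw [if_neg (by omega), if_neg (by omega), sub_zero, sub_zero]
      refine (key _ hm).trans (le_mul_of_one_le_right (by positivity) (hge _ ?_))
      push_cast
      omega

private theorem abs_sgn (m : ℕ) (a : ℝ) : |(-1) ^ m * a| = |a| := by
  rw [abs_mul, abs_pow, abs_neg, abs_one, one_pow, one_mul]

/-- Many points of exponent `x ≥ 1` of the support `∅`: `(1 - t^x)^N` is `exp (-N t^x)` modulo the type
`1`, if `N ≤ C₀ n^x`. -/
theorem ty_pts (d x : ℕ) (hx : 1 ≤ x) (C₀ : ℝ) : ∃ C : ℝ, 1 ≤ C ∧ ∀ n N : ℕ, 1 ≤ n →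
    (N : ℝ) ≤ C₀ * (n : ℝ) ^ x →
      Ty d n 0 C ((1 - X ^ x) ^ N) ∧ Ty d n 1 C ((1 - X ^ x) ^ N - ex (-(N : ℝ)) x) := by
  have hd0 : (0 : ℝ) ≤ d := Nat.cast_nonneg d
  have hB : (1 : ℝ) ≤ 1 + |C₀| := by linarith [abs_nonneg C₀]
  have hp : (1 : ℝ) ≤ (1 + |C₀|) ^ d := one_le_pow₀ hB
  refine ⟨(1 + d * d) * (1 + |C₀|) ^ d,
    one_le_mul_of_one_le_of_one_le (by nlinarith) hp, fun n N hn hN => ?_⟩
  have hn1 : (1 : ℝ) ≤ n := by exact_mod_cast hn
  have hnx : (n : ℝ) ≤ (n : ℝ) ^ x := le_self_pow₀ hn1 (by omega)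
  have hq : (0 : ℝ) ≤ (n : ℝ) ^ x := by positivity
  have hM : (N : ℝ) ≤ (1 + |C₀|) * (n : ℝ) ^ x := by
    refine hN.trans (mul_le_mul_of_nonneg_right ?_ hq)
    linarith [le_abs_self C₀]
  have hmd : ∀ m, x * m ≤ d → m ≤ d := fun m hm => (Nat.le_mul_of_pos_left m hx).trans hm
  constructor
  · rw [pow_eq_spr x hx]
    refine ty_spr hx (by positivity) fun m hm => ?_
    rw [abs_sgn, sub_zero, zpow_natCast, pow_mul]
    refine ((choose_near N m _ hM).1.trans (pw hB hq (hmd m hm))).trans ?_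
    refine mul_le_mul_of_nonneg_right ?_ (by positivity)
    nlinarith
  · have e2 : ex (-(N : ℝ)) x = spr x fun m => (-(N : ℝ)) ^ m / (m.factorial : ℝ) := rfl
    rw [pow_eq_spr x hx, e2, spr_sub]
    refine ty_spr hx (by positivity) fun m hm => ?_
    refine le_zpow hn ?_
    have e3 : (-1 : ℝ) ^ m * (Nat.choose N m : ℝ) - (-(N : ℝ)) ^ m / (m.factorial : ℝ) =
        (-1) ^ m * ((Nat.choose N m : ℝ) - (N : ℝ) ^ m / (m.factorial : ℝ)) := by
      rw [neg_pow (N : ℝ) m]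
      ring
    rw [e3, abs_sgn]
    have hm' : (m : ℝ) ≤ d := by exact_mod_cast hmd m hm
    have h1 := (choose_near N m _ hM).2
    have h2 : (n : ℝ) * |(Nat.choose N m : ℝ) - (N : ℝ) ^ m / (m.factorial : ℝ)| ≤
        (1 + |C₀|) * (n : ℝ) ^ x * |(Nat.choose N m : ℝ) - (N : ℝ) ^ m / (m.factorial : ℝ)| :=
      mul_le_mul_of_nonneg_right (by nlinarith) (abs_nonneg _)
    have h3 : (m : ℝ) * m * ((1 + |C₀|) * (n : ℝ) ^ x) ^ m ≤
        d * d * ((1 + |C₀|) ^ d * ((n : ℝ) ^ x) ^ m) :=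
      mul_le_mul (mul_le_mul hm' hm' (Nat.cast_nonneg m) hd0) (pw hB hq (hmd m hm))
        (by positivity) (by positivity)
    rw [pow_mul]
    calc _ ≤ _ := h2.trans (h1.trans h3)
      _ = d * d * (1 + |C₀|) ^ d * ((n : ℝ) ^ x) ^ m := by ring
      _ ≤ _ := by
        refine mul_le_mul_of_nonneg_right ?_ (by positivity)
        nlinarith

private theorem pt_near (d x w : ℕ) (hw : w < x) (C₀ : ℝ) : ∃ C : ℝ, 1 ≤ C ∧ ∀ n N : ℕ, 1 ≤ n →
    (N : ℝ) ≤ C₀ * (n : ℝ) ^ w →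
      Ty d n ((x : ℤ) - w) C ((1 - X ^ x) ^ N - 1) ∧
        Ty d n (2 * ((x : ℤ) - w)) C ((1 - X ^ x) ^ N - 1 + PowerSeries.C (N : ℝ) * X ^ x) ∧
        Ty d n ((x : ℤ) - w) C (spr x (fun m => (Nat.multichoose N m : ℝ)) - 1) := by
  have hx : 1 ≤ x := by omega
  have hd0 : (0 : ℝ) ≤ d := Nat.cast_nonneg d
  have hB : (1 : ℝ) ≤ 1 + |C₀| + d := by linarith [abs_nonneg C₀]
  refine ⟨(1 + |C₀| + d) ^ d, one_le_pow₀ hB, fun n N hn hN => ?_⟩
  have hn1 : (1 : ℝ) ≤ n := by exact_mod_cast hn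
  have hq : (0 : ℝ) ≤ (n : ℝ) ^ w := by positivity
  have hq1 : (1 : ℝ) ≤ (n : ℝ) ^ w := one_le_pow₀ hn1
  have hN0 : (0 : ℝ) ≤ N := Nat.cast_nonneg N
  have hMd : (N : ℝ) + d ≤ (1 + |C₀| + d) * (n : ℝ) ^ w := by
    have h1 : C₀ * (n : ℝ) ^ w ≤ |C₀| * (n : ℝ) ^ w :=
      mul_le_mul_of_nonneg_right (le_abs_self C₀) hq
    nlinarith
  have hM : (N : ℝ) ≤ (1 + |C₀| + d) * (n : ℝ) ^ w := by linarith
  have hmd : ∀ m, x * m ≤ d → m ≤ d := fun m hm => (Nat.le_mul_of_pos_left m hx).trans hm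
  have hb : ∀ m, x * m ≤ d → ((1 + |C₀| + d) * (n : ℝ) ^ w) ^ m ≤
      (1 + |C₀| + d) ^ d * (n : ℝ) ^ (w * m) := by
    intro m hm
    rw [pow_mul]
    exact pw hB hq (hmd m hm)
  have e1 : ((1 - X ^ x) ^ N - 1 : PowerSeries ℝ) = spr x fun m =>
      (-1) ^ m * (Nat.choose N m : ℝ) - if m = 0 then 1 else 0 := by
    rw [pow_eq_spr x hx, ← spr_one x hx, spr_sub]
  -- the exponents
  have hex : ∀ m j : ℕ, j ≤ m → ((w * m : ℕ) : ℤ) ≤ ((x * m : ℕ) : ℤ) - j * ((x : ℤ) - w) := by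
    intro m j hj
    have h1 : (0 : ℤ) ≤ ((m : ℤ) - j) * ((x : ℤ) - w) :=
      mul_nonneg (by omega) (by omega)
    push_cast
    nlinarith
  refine ⟨?_, ?_, ?_⟩
  · rw [e1]
    refine ty_spr hx (by positivity) fun m hm => ?_
    rcases m with _ | m
    · rw [Nat.choose_zero_right, if_pos rfl, Nat.cast_one, pow_zero, one_mul, sub_self, abs_zero]
      positivity
    · rw [if_neg (Nat.succ_ne_zero m), sub_zero, abs_sgn]
      refine ((choose_near N _ _ hM).1.trans (hb _ hm)).trans ?_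
      refine mul_le_mul_of_nonneg_left (npow_le hn ?_) (by positivity)
      have h1 := hex (m + 1) 1 (by omega)
      push_cast at h1 ⊢
      linarith
  · have e2 : ((1 - X ^ x) ^ N - 1 + PowerSeries.C (N : ℝ) * X ^ x : PowerSeries ℝ) =
        spr x fun m => (-1) ^ m * (Nat.choose N m : ℝ) - (if m = 0 then 1 else 0) +
          if m = 1 then (N : ℝ) else 0 := by
      rw [e1, C_mul_X_pow x hx, spr_add]
    rw [e2]
    refine ty_spr hx (by positivity) fun m hm => ?_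
    rcases m with _ | _ | m
    · simp only [Nat.choose_zero_right, if_true, Nat.cast_one, pow_zero, one_mul, sub_self,
        zero_ne_one, if_false, add_zero, abs_zero]
      positivity
    · simp only [zero_add, Nat.choose_one_right, one_ne_zero, if_false, if_true, sub_zero,
        pow_one, neg_mul, one_mul, neg_add_cancel, abs_zero]
      positivity
    · rw [if_neg (by omega), if_neg (by omega), sub_zero, add_zero, abs_sgn]
      refine ((choose_near N _ _ hM).1.trans (hb _ hm)).trans ?_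
      refine mul_le_mul_of_nonneg_left (npow_le hn ?_) (by positivity)
      have h1 := hex (m + 1 + 1) 2 (by omega)
      push_cast at h1 ⊢
      linarith
  · rw [← spr_one x hx, spr_sub]
    refine ty_spr hx (by positivity) fun m hm => ?_
    rcases m with _ | m
    · rw [Nat.multichoose_zero_right, if_pos rfl, Nat.cast_one, sub_self, abs_zero]
      positivity
    · rw [if_neg (Nat.succ_ne_zero m), sub_zero]
      have hm1 : ((m + 1 : ℕ) : ℝ) ≤ d := by exact_mod_cast hmd _ hm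
      refine ((multi_near N (m + 1) N _ d (by rw [abs_of_nonneg hN0]; exact hM) hd0
        (by linarith) (fun i hi => ?_)).1.trans (hb _ hm)).trans ?_
      · have h5 : (i : ℝ) ≤ ((m + 1 : ℕ) : ℝ) := by exact_mod_cast hi.le
        rw [add_sub_cancel_left, abs_of_nonneg (Nat.cast_nonneg i)]
        linarith
      · refine mul_le_mul_of_nonneg_left (npow_le hn ?_) (by positivity)
        have h1 := hex (m + 1) 1 (by omega)
        push_cast at h1 ⊢
        linarith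

private theorem kind_one (d k a : ℕ) (hk : 1 ≤ k) (ha : 1 ≤ a) (had : a ≤ d) (C₀ : ℝ) :
    ∃ C : ℝ, 1 ≤ C ∧ ∀ (n : ℕ) (N : ℕ → ℕ), 1 ≤ n →
    (∀ x, x < k → N x = 0) → (∀ x, k ≤ x → x ≤ d → (N x : ℝ) ≤ C₀ * (n : ℝ) ^ (x - k)) →
      Ty d n k C ((1 - X ^ a) ^ N a - 1) ∧
        Ty d n (k + 1) C ((1 - X ^ a) ^ N a - 1 + PowerSeries.C (N a : ℝ) * X ^ a) := by
  by_cases hak : a < k
  · refine ⟨1, le_rfl, fun n N hn h0 _ => ?_⟩
    rw [h0 a hak, pow_zero, sub_self, Nat.cast_zero, map_zero, zero_mul, add_zero]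
    exact ⟨Ty.zero _ zero_le_one, Ty.zero _ zero_le_one⟩
  · obtain ⟨C, hC, h⟩ := pt_near d a (a - k) (by omega) C₀
    refine ⟨C, hC, fun n N hn _ hN => ?_⟩
    obtain ⟨h1, h2, _⟩ := h n (N a) hn (hN a (by omega) had)
    have hC0 : 0 ≤ C := by linarith
    exact ⟨h1.mono hn (by omega) le_rfl hC0, h2.mono hn (by omega) le_rfl hC0⟩

private theorem kind_aux (d k : ℕ) (hk : 1 ≤ k) (C₀ : ℝ) (s : Finset ℕ)
    (hs : ∀ x ∈ s, 1 ≤ x ∧ x ≤ d) : ∃ C : ℝ, 1 ≤ C ∧ ∀ (n : ℕ) (N : ℕ → ℕ), 1 ≤ n →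
    (∀ x, x < k → N x = 0) → (∀ x, k ≤ x → x ≤ d → (N x : ℝ) ≤ C₀ * (n : ℝ) ^ (x - k)) →
      Ty d n k C (∏ x ∈ s, (1 - X ^ x) ^ N x - 1) ∧
        Ty d n (k + 1) C (∏ x ∈ s, (1 - X ^ x) ^ N x - 1 +
          ∑ x ∈ s, PowerSeries.C (N x : ℝ) * X ^ x) := by
  classical
  induction s using Finset.induction_on with
  | empty =>
    refine ⟨1, le_rfl, fun n N _ _ _ => ?_⟩
    rw [prod_empty, sub_self, sum_empty, add_zero]
    exact ⟨Ty.zero _ zero_le_one, Ty.zero _ zero_le_one⟩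
  | insert a s ha ih =>
    obtain ⟨C, hC, h⟩ := ih fun x hx => hs x (mem_insert_of_mem hx)
    obtain ⟨Ca, hCa, h'⟩ := kind_one d k a hk (hs a (mem_insert_self _ _)).1
      (hs a (mem_insert_self _ _)).2 C₀
    have hC0 : 0 ≤ C := by linarith
    have hCa0 : 0 ≤ Ca := by linarith
    have hp : 0 ≤ (d + 1) * Ca * C := by positivity
    refine ⟨C + Ca + (d + 1) * Ca * C, by linarith, fun n N hn h0 hN => ?_⟩
    obtain ⟨h1, h2⟩ := h n N hn h0 hN
    obtain ⟨h3, h4⟩ := h' n N hn h0 hN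
    have h5 := Ty.mul hn hCa0 hC0 h3 h1
    rw [prod_insert ha, sum_insert ha]
    constructor
    · refine ((h1.add h3).add (h5.mono hn (by omega) le_rfl hp)).congr rfl rfl ?_
      ring
    · refine ((h2.add h4).add (h5.mono hn (by omega) le_rfl hp)).congr rfl rfl ?_
      ring

/-- The points of a support `K ≠ ∅`, `k = |K|`: numbers `N x ≤ C₀ n ^ (x - k)` for `x ≥ k`, `N x = 0` for
`x < k` or `x > d`. -/
theorem ty_kind (d k : ℕ) (hk : 1 ≤ k) (C₀ : ℝ) : ∃ C : ℝ, 1 ≤ C ∧ ∀ (n : ℕ) (N : ℕ → ℕ), 1 ≤ n →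
    (∀ x, x < k → N x = 0) → (∀ x, k ≤ x → x ≤ d → (N x : ℝ) ≤ C₀ * (n : ℝ) ^ (x - k)) →
      Ty d n k C (∏ x ∈ Icc 1 d, (1 - X ^ x) ^ N x - 1) ∧
        Ty d n (k + 1) C (∏ x ∈ Icc 1 d, (1 - X ^ x) ^ N x - 1 +
          ∑ x ∈ Icc 1 d, PowerSeries.C (N x : ℝ) * X ^ x) :=
  kind_aux d k hk C₀ (Icc 1 d) fun _ hx => mem_Icc.1 hx

/-- A cluster type: `N ≤ C₀ n^w`, `w < x`. -/
theorem ty_cl (d x w : ℕ) (hw : w < x) (C₀ : ℝ) : ∃ C : ℝ, 1 ≤ C ∧ ∀ n N : ℕ, 1 ≤ n →
    (N : ℝ) ≤ C₀ * (n : ℝ) ^ w →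
      Ty d n ((x : ℤ) - w) C ((1 - X ^ x) ^ N - 1) ∧
        Ty d n ((x : ℤ) - w) C
          ((PowerSeries.mk fun D => if x ∣ D then (Nat.multichoose N (D / x) : ℝ) else 0) - 1) := by
  obtain ⟨C, hC, h⟩ := pt_near d x w hw C₀
  exact ⟨C, hC, fun n N hn hN => ⟨(h n N hn hN).1, (h n N hn hN).2.2⟩⟩

/-- The inverse of `(1 - t^x)^N`. -/
theorem inv_pts (x N : ℕ) (hx : 1 ≤ x) : ((1 - X ^ x) ^ N : PowerSeries ℝ) *
    (PowerSeries.mk fun D => if x ∣ D then (Nat.multichoose N (D / x) : ℝ) else 0) = 1 :=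
  inv_spr x N hx

theorem hr_add (a b : ℕ) : hr (a + b) = hr a * hr b := by
  have h : ∀ N, ((1 - X ^ 1) ^ N : PowerSeries ℝ) * hr N = 1 := fun N => by
    rw [hr_eq]
    exact inv_spr 1 N le_rfl
  calc hr (a + b) = ((1 - X ^ 1) ^ a * hr a) * ((1 - X ^ 1) ^ b * hr b) * hr (a + b) := by
        rw [h a, h b, one_mul, one_mul]
    _ = ((1 - X ^ 1) ^ (a + b) * hr (a + b)) * (hr a * hr b) := by
        rw [pow_add]
        ring
    _ = _ := by rw [h (a + b), one_mul]

end Pool.Agent.GD.VT
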