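import Pool.Agent.GD.BE.MixA
import Pool.Agent.GD.Cls
import Pool.Agent.GD.VT.Ty

/-!
# General d, VT: the exponential formula

`GV y I a`: the virtual dimension of the tensor system with the slots `I ⊔ Fin a` and the densities
`y K b` of the kinds with the base part `K` and `b` slots in `Fin a`.
`GV_series`: `[t^a]` of the sum over the families of pairwise disjoint nonempty subsets of `I`; both sides
satisfy the same recursion in `a` (derivative of the series; the recursion `IsF` for the last slot, the value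
depends only on the number of the slots in `Fin a`) and agree for `a = 0`.
-/

set_option autoImplicit false

namespace Pool.Agent.GD.VT

open Finset PowerSeries Pool.Agent.GD.BE

private theorem Dj_empty {ι : Type} [DecidableEq ι] : Dj (∅ : Finset ι) = {∅} := by
  ext P
  rw [mem_Dj, Finset.mem_singleton]
  constructor
  · rintro ⟨h1, h2, _⟩
    rw [Finset.eq_empty_iff_forall_notMem]
    intro S hS
    have h3 := Finset.subset_empty.1 (h1 S hS)
    exact h2 (h3 ▸ hS)
  · rintro rfl
    simp

/-- The pairs (a family, one of its members). -/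
private theorem sum_Dj_mem {ι M : Type} [DecidableEq ι] [AddCommMonoid M] (I : Finset ι)
    (g : Finset ι → Finset (Finset ι) → M) :
    ∑ P ∈ Dj I, ∑ K ∈ P, g K (P.erase K) = ∑ K ∈ I.powerset.erase ∅, ∑ P ∈ Dj (I \ K), g K P := by
  rw [Finset.sum_sigma', Finset.sum_sigma']
  refine Finset.sum_bij' (fun x _ => (⟨x.2, x.1.erase x.2⟩ : Σ _ : Finset ι, Finset (Finset ι)))
    (fun x _ => (⟨insert x.1 x.2, x.1⟩ : Σ _ : Finset (Finset ι), Finset ι)) ?_ ?_ ?_ ?_ ?_
  · rintro ⟨P, K⟩ hx
    rw [Finset.mem_sigma] at hx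
    obtain ⟨hP, hK⟩ := hx
    dsimp only at hP hK
    rw [mem_Dj] at hP
    obtain ⟨h1, h2, h3⟩ := hP
    rw [Finset.mem_sigma]
    dsimp only
    rw [Finset.mem_erase, Finset.mem_powerset, mem_Dj]
    refine ⟨⟨fun h => h2 (h ▸ hK), h1 K hK⟩, ?_, fun h => h2 (Finset.mem_of_mem_erase h), ?_⟩
    · intro S hS
      have hSP := Finset.mem_of_mem_erase hS
      have hd := h3 S hSP K hK (Finset.ne_of_mem_erase hS)
      intro x hx
      rw [Finset.mem_sdiff]
      exact ⟨h1 S hSP hx, fun h => Finset.disjoint_left.1 hd hx h⟩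
    · intro S hS T hT hST
      exact h3 S (Finset.mem_of_mem_erase hS) T (Finset.mem_of_mem_erase hT) hST
  · rintro ⟨K, P⟩ hx
    rw [Finset.mem_sigma] at hx
    obtain ⟨hK, hP⟩ := hx
    dsimp only at hP hK
    rw [mem_Dj] at hP
    rw [Finset.mem_erase, Finset.mem_powerset] at hK
    obtain ⟨h1, h2, h3⟩ := hP
    rw [Finset.mem_sigma]
    dsimp only
    rw [mem_Dj]
    have hd : ∀ S ∈ P, Disjoint K S := by
      intro S hS
      rw [Finset.disjoint_left]
      intro x hx hxS
      exact (Finset.mem_sdiff.1 (h1 S hS hxS)).2 hx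
    refine ⟨⟨?_, ?_, ?_⟩, Finset.mem_insert_self _ _⟩
    · intro S hS
      rcases Finset.mem_insert.1 hS with rfl | hS
      · exact hK.2
      · exact (h1 S hS).trans Finset.sdiff_subset
    · intro h
      rcases Finset.mem_insert.1 h with h | h
      · exact hK.1 h.symm
      · exact h2 h
    · intro S hS T hT hST
      rcases Finset.mem_insert.1 hS with hS | hS
      · rcases Finset.mem_insert.1 hT with hT | hT
        · exact absurd (hS.trans hT.symm) hST
        · rw [hS]; exact hd T hT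
      · rcases Finset.mem_insert.1 hT with hT | hT
        · rw [hT]; exact (hd S hS).symm
        · exact h3 S hS T hT hST
  · rintro ⟨P, K⟩ hx
    rw [Finset.mem_sigma] at hx
    dsimp only at hx ⊢
    rw [Finset.insert_erase hx.2]
  · rintro ⟨K, P⟩ hx
    rw [Finset.mem_sigma] at hx
    obtain ⟨hK, hP⟩ := hx
    dsimp only at hP hK ⊢
    rw [mem_Dj] at hP
    rw [Finset.mem_erase, Finset.mem_powerset] at hK
    have hKP : K ∉ P := by
      intro h
      apply hK.1
      rw [Finset.eq_empty_iff_forall_notMem]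
      intro x hx
      exact (Finset.mem_sdiff.1 (hP.1 K h hx)).2 hx
    rw [Finset.erase_insert hKP]
  · rintro ⟨P, K⟩ _
    rfl

/-- The recursion for real densities. -/
theorem FR_insert {ι : Type} [DecidableEq ι] (κ : Finset ι → ℝ) (I : Finset ι) (i : ι)
    (hi : i ∉ I) : FR κ (insert i I) = FR κ I - ∑ B ∈ I.powerset, κ (insert i B) * FR κ (I \ B) := by
  classical
  unfold FR
  rw [← Finset.sum_filter_add_sum_filter_not (Dj (insert i I)) (fun P => ∃ S ∈ P, i ∈ S)]
  have h1 : (Dj (insert i I)).filter (fun P => ¬ ∃ S ∈ P, i ∈ S) = Dj I := by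
    ext P
    rw [Finset.mem_filter, mem_Dj, mem_Dj]
    constructor
    · rintro ⟨⟨h1, h2⟩, h3⟩
      refine ⟨fun S hS => ?_, h2⟩
      have h4 := h1 S hS
      intro x hx
      rcases Finset.mem_insert.1 (h4 hx) with h5 | h5
      · subst h5
        exact absurd ⟨S, hS, hx⟩ h3
      · exact h5
    · rintro ⟨h1, h2⟩
      refine ⟨⟨fun S hS => (h1 S hS).trans (Finset.subset_insert _ _), h2⟩, ?_⟩
      rintro ⟨S, hS, h3⟩
      exact hi (h1 S hS h3)
  rw [h1]
  have h2 : ∑ P ∈ (Dj (insert i I)).filter (fun P => ∃ S ∈ P, i ∈ S), ∏ S ∈ P, -κ S =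
      ∑ x ∈ I.powerset.sigma fun B => Dj (I \ B), -κ (insert i x.1) * ∏ S ∈ x.2, -κ S := by
    symm
    have hni : ∀ x : (Σ _ : Finset ι, Finset (Finset ι)),
        x ∈ (I.powerset.sigma fun B => Dj (I \ B)) → ∀ T ∈ x.2, i ∉ T := by
      intro x hx T hT h
      rw [Finset.mem_sigma, Finset.mem_powerset, mem_Dj] at hx
      exact hi (Finset.mem_sdiff.1 (hx.2.1 T hT h)).1
    have hnm : ∀ x : (Σ _ : Finset ι, Finset (Finset ι)),
        x ∈ (I.powerset.sigma fun B => Dj (I \ B)) → insert i x.1 ∉ x.2 := by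
      intro x hx h
      exact hni x hx _ h (Finset.mem_insert_self _ _)
    refine Finset.sum_bij (fun x _ => insert (insert i x.1) x.2) ?_ ?_ ?_ ?_
    · intro x hx
      have hx' := hx
      rw [Finset.mem_sigma, Finset.mem_powerset, mem_Dj] at hx'
      obtain ⟨h3, h4, h5, h6⟩ := hx'
      rw [Finset.mem_filter, mem_Dj]
      refine ⟨⟨?_, ?_, ?_⟩, ⟨_, Finset.mem_insert_self _ _, Finset.mem_insert_self _ _⟩⟩
      · intro S hS
        rcases Finset.mem_insert.1 hS with rfl | hS
        · exact Finset.insert_subset_insert _ h3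
        · exact ((h4 S hS).trans Finset.sdiff_subset).trans (Finset.subset_insert _ _)
      · intro h
        rcases Finset.mem_insert.1 h with h | h
        · have : i ∈ (∅ : Finset ι) := by rw [h]; exact Finset.mem_insert_self _ _
          exact absurd this (Finset.notMem_empty _)
        · exact h5 h
      · have hd : ∀ T ∈ x.2, Disjoint (insert i x.1) T := by
          intro T hT
          rw [Finset.disjoint_left]
          intro y hy hyT
          rcases Finset.mem_insert.1 hy with rfl | hy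
          · exact hni x hx T hT hyT
          · exact (Finset.mem_sdiff.1 (h4 T hT hyT)).2 hy
        intro S hS T hT hST
        rcases Finset.mem_insert.1 hS with hS | hS
        · rcases Finset.mem_insert.1 hT with hT | hT
          · exact absurd (hS.trans hT.symm) hST
          · rw [hS]; exact hd T hT
        · rcases Finset.mem_insert.1 hT with hT | hT
          · rw [hT]; exact (hd S hS).symm
          · exact h6 S hS T hT hST
    · rintro ⟨B, P⟩ hx ⟨B', P'⟩ hx' h
      have h3 : insert i B ∈ insert (insert i B') P' := by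
        have h4 : insert i B ∈ insert (insert i B) P := Finset.mem_insert_self _ _
        rw [show insert (insert i B) P = insert (insert i B') P' from h] at h4
        exact h4
      have hxB := (Finset.mem_sigma.1 hx).1
      have hxB' := (Finset.mem_sigma.1 hx').1
      rw [Finset.mem_powerset] at hxB hxB'
      have h4 : insert i B = insert i B' := by
        rcases Finset.mem_insert.1 h3 with h4 | h4
        · exact h4
        · exact absurd (Finset.mem_insert_self i B) (hni _ hx' _ h4)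
      have h5 : B = B' := by
        have h6 := congrArg (fun T => T.erase i) h4
        simp only [Finset.erase_insert (fun h => hi (hxB h) : i ∉ B),
          Finset.erase_insert (fun h => hi (hxB' h) : i ∉ B')] at h6
        exact h6
      subst h5
      have h6 : P = P' := by
        have h7 := congrArg (fun T => T.erase (insert i B)) h
        simp only [Finset.erase_insert (hnm _ hx : insert i B ∉ P),
          Finset.erase_insert (hnm _ hx' : insert i B ∉ P')] at h7
        exact h7
      rw [h6]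
    · intro P hP
      rw [Finset.mem_filter, mem_Dj] at hP
      obtain ⟨⟨h3, h4, h5⟩, S, hS, hiS⟩ := hP
      refine ⟨⟨S.erase i, P.erase S⟩, ?_, ?_⟩
      · rw [Finset.mem_sigma, Finset.mem_powerset, mem_Dj]
        refine ⟨?_, ?_, ?_, ?_⟩
        · exact Finset.subset_insert_iff.1 (h3 S hS)
        · intro T hT
          have hTP := Finset.mem_of_mem_erase hT
          have hd := h5 T hTP S hS (Finset.ne_of_mem_erase hT)
          rw [Finset.disjoint_left] at hd
          intro x hx
          refine Finset.mem_sdiff.2 ⟨?_, fun h => hd hx (Finset.mem_of_mem_erase h)⟩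
          rcases Finset.mem_insert.1 (h3 T hTP hx) with rfl | h
          · exact absurd hiS (hd hx)
          · exact h
        · exact fun h => h4 (Finset.mem_of_mem_erase h)
        · exact fun T hT T' hT' => h5 T (Finset.mem_of_mem_erase hT) T' (Finset.mem_of_mem_erase hT')
      · show insert (insert i (S.erase i)) (P.erase S) = P
        rw [Finset.insert_erase hiS, Finset.insert_erase hS]
    · intro x hx
      rw [Finset.prod_insert (hnm x hx)]
  rw [h2, Finset.sum_sigma]
  have h3 : ∀ B ∈ I.powerset, ∑ P ∈ Dj (I \ B), -κ (insert i B) * ∏ S ∈ P, -κ S =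
      -(κ (insert i B) * ∑ P ∈ Dj (I \ B), ∏ S ∈ P, -κ S) := by
    intro B _
    rw [← Finset.mul_sum, neg_mul]
  rw [Finset.sum_congr rfl h3, Finset.sum_neg_distrib]
  ring

theorem FR_empty {ι : Type} [DecidableEq ι] (κ : Finset ι → ℝ) : FR κ ∅ = 1 := by
  unfold FR
  rw [Dj_empty, Finset.sum_singleton, Finset.prod_empty]

theorem FR_congr {ι : Type} [DecidableEq ι] {κ κ' : Finset ι → ℝ} {I : Finset ι}
    (h : ∀ S ⊆ I, S ≠ ∅ → κ S = κ' S) : FR κ I = FR κ' I := by
  unfold FR
  refine Finset.sum_congr rfl fun P hP => Finset.prod_congr rfl fun S hS => ?_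
  rw [mem_Dj] at hP
  rw [h S (hP.1 S hS) fun h0 => hP.2.1 (h0 ▸ hS)]

/-- Renaming of the slots. -/
theorem FR_map {ι ι' : Type} [DecidableEq ι] [DecidableEq ι'] (f : ι ↪ ι') (κ : Finset ι' → ℝ)
    (I : Finset ι) : FR κ (I.map f) = FR (fun S => κ (S.map f)) I := by
  induction I using Finset.strongInduction with
  | H I ih =>
    rcases I.eq_empty_or_nonempty with rfl | ⟨i, hi⟩
    · rw [Finset.map_empty, FR_empty, FR_empty]
    · have h1 : I = insert i (I.erase i) := (Finset.insert_erase hi).symm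
      have h2 : i ∉ I.erase i := Finset.notMem_erase _ _
      have h3 : f i ∉ (I.erase i).map f := by
        rw [Finset.mem_map']
        exact h2
      rw [h1, Finset.map_insert, FR_insert _ _ _ h3, FR_insert _ _ _ h2, ih _ (Finset.erase_ssubset hi)]
      congr 1
      symm
      refine Finset.sum_bij (fun B _ => B.map f) ?_ ?_ ?_ ?_
      · intro B hB
        rw [Finset.mem_powerset] at hB ⊢
        exact Finset.map_subset_map.2 hB
      · intro B _ B' _ h
        exact Finset.map_injective f h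
      · intro B hB
        rw [Finset.mem_powerset, Finset.subset_map_iff] at hB
        obtain ⟨u, hu, rfl⟩ := hB
        exact ⟨u, Finset.mem_powerset.2 hu, rfl⟩
      · intro B _
        rw [← Finset.map_sdiff, Finset.map_insert,
          ih _ (Finset.sdiff_subset.trans_ssubset (Finset.erase_ssubset hi))]

/-- Natural densities. -/
theorem FR_nat {ι : Type} [DecidableEq ι] (kap : ℕ → ℝ) (h1 : kap 1 = 0) (I : Finset ι) :
    FR (fun S => (S.card.factorial : ℝ) * kap S.card) I = (I.card.factorial : ℝ) * gg kap I.card := by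
  induction I using Finset.strongInduction with
  | H I ih =>
    rcases I.eq_empty_or_nonempty with rfl | ⟨i, hi⟩
    · rw [FR_empty, Finset.card_empty, gg]
      simp
    · obtain ⟨J, h2, h3, hJ⟩ : ∃ J : Finset ι, I = insert i J ∧ i ∉ J ∧ J ⊂ I :=
        ⟨I.erase i, (Finset.insert_erase hi).symm, Finset.notMem_erase _ _, Finset.erase_ssubset hi⟩
      rw [h2, FR_insert _ _ _ h3, Finset.card_insert_of_notMem h3, ih _ hJ]
      have h4 : ∀ B ∈ J.powerset, (((insert i B).card.factorial : ℝ) * kap (insert i B).card) *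
          FR (fun S : Finset ι => (S.card.factorial : ℝ) * kap S.card) (J \ B) =
          (fun b : ℕ => (((b + 1).factorial : ℝ) * kap (b + 1)) *
            (((J.card - b).factorial : ℝ) * gg kap (J.card - b))) B.card := by
        intro B hB
        rw [Finset.mem_powerset] at hB
        rw [Finset.card_insert_of_notMem fun h => h3 (hB h),
          ih _ (Finset.sdiff_subset.trans_ssubset hJ), Finset.card_sdiff_of_subset hB]
      rw [Finset.sum_congr rfl h4, Finset.sum_powerset_apply_card (fun b : ℕ =>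
        (((b + 1).factorial : ℝ) * kap (b + 1)) * (((J.card - b).factorial : ℝ) * gg kap (J.card - b)))]
      have h5 : ∀ b ∈ range (J.card + 1), J.card.choose b • ((((b + 1).factorial : ℝ) * kap (b + 1)) *
            (((J.card - b).factorial : ℝ) * gg kap (J.card - b))) =
          (J.card.factorial : ℝ) * (((b + 1 : ℕ) : ℝ) * kap (b + 1) * gg kap (J.card - b)) := by
        intro b hb
        rw [Finset.mem_range, Nat.lt_succ_iff] at hb
        have h6 : (J.card.choose b : ℝ) * (b.factorial : ℝ) * ((J.card - b).factorial : ℝ) =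
            (J.card.factorial : ℝ) := by exact_mod_cast Nat.choose_mul_factorial_mul_factorial hb
        rw [nsmul_eq_mul, Nat.factorial_succ, Nat.cast_mul, ← h6]
        ring
      rw [Finset.sum_congr rfl h5, ← Finset.mul_sum, Nat.factorial_succ]
      have h7 : ∑ b ∈ range (J.card + 1), (((b + 1 : ℕ) : ℝ) * kap (b + 1) * gg kap (J.card - b)) =
          ∑ x : Fin J.card, ((J.card + 1 - x.1 : ℕ) : ℝ) * kap (J.card + 1 - x.1) * gg kap x.1 := by
        rw [Finset.sum_range_succ', zero_add, h1, mul_zero, zero_mul, add_zero,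
          Fin.sum_univ_eq_sum_range (fun x => ((J.card + 1 - x : ℕ) : ℝ) * kap (J.card + 1 - x) * gg kap x),
          ← Finset.sum_range_reflect]
        refine Finset.sum_congr rfl fun b hb => ?_
        rw [Finset.mem_range] at hb
        have e1 : J.card - 1 - b + 1 + 1 = J.card + 1 - b := by omega
        have e2 : J.card - (J.card - 1 - b + 1) = b := by omega
        rw [e1, e2]
      rw [h7, gg]
      have h8 : ((J.card : ℝ) + 1) ≠ 0 := Nat.cast_add_one_ne_zero J.card
      rw [Nat.cast_mul, Nat.cast_succ]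
      field_simp

/-- The values with the slots `I ⊔ Fin a`. -/
noncomputable def GV (y : Finset ℕ → ℕ → ℝ) (I : Finset ℕ) (a : ℕ) : ℝ :=
  FR (fun S : Finset (ℕ ⊕ Fin a) => y (S.preimage Sum.inl Sum.inl_injective.injOn)
    (S.preimage Sum.inr Sum.inr_injective.injOn).card) (I.disjSum univ)

private theorem pre_left {α β : Type} [DecidableEq α] [DecidableEq β] (S : Finset (α ⊕ β)) :
    S.preimage Sum.inl Sum.inl_injective.injOn = S.toLeft := by
  ext x
  simp

private theorem pre_right {α β : Type} [DecidableEq α] [DecidableEq β] (S : Finset (α ⊕ β)) :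
    S.preimage Sum.inr Sum.inr_injective.injOn = S.toRight := by
  ext x
  simp

/-- The slots of the tensor systems. -/
theorem GV_eq (y : Finset ℕ → ℕ → ℝ) (J a : ℕ) :
    GV y (range J) a = FR (fun S : Finset (Fin J ⊕ Fin a) =>
      y ((lf S).map Fin.valEmbedding) (rt S).card) univ := by
  let f : Fin J ⊕ Fin a ↪ ℕ ⊕ Fin a := Fin.valEmbedding.sumMap (Function.Embedding.refl _)
  have h1 : (range J).disjSum (univ : Finset (Fin a)) = (univ : Finset (Fin J ⊕ Fin a)).map f := by
    ext x
    rw [Finset.mem_map]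
    constructor
    · intro hx
      rcases x with x | x
      · rw [Finset.inl_mem_disjSum, Finset.mem_range] at hx
        exact ⟨Sum.inl ⟨x, hx⟩, Finset.mem_univ _, rfl⟩
      · exact ⟨Sum.inr x, Finset.mem_univ _, rfl⟩
    · rintro ⟨z, _, rfl⟩
      rcases z with z | z
      · show Sum.inl (z : ℕ) ∈ _
        rw [Finset.inl_mem_disjSum, Finset.mem_range]
        exact z.2
      · show Sum.inr z ∈ _
        rw [Finset.inr_mem_disjSum]
        exact Finset.mem_univ _
  unfold GV
  rw [h1, FR_map]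
  refine FR_congr fun S _ _ => ?_
  have h2 : (S.map f).preimage Sum.inl Sum.inl_injective.injOn = (lf S).map Fin.valEmbedding := by
    ext x
    rw [Finset.mem_preimage, Finset.mem_map, Finset.mem_map]
    constructor
    · rintro ⟨z, hz, h⟩
      rcases z with z | z
      · refine ⟨z, ?_, Sum.inl_injective h⟩
        rw [lf, Finset.mem_filter]
        exact ⟨Finset.mem_univ _, hz⟩
      · exact absurd h (by simp [f])
    · rintro ⟨z, hz, rfl⟩
      rw [lf, Finset.mem_filter] at hz
      exact ⟨Sum.inl z, hz.2, rfl⟩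
  have h3 : (S.map f).preimage Sum.inr Sum.inr_injective.injOn = rt S := by
    ext x
    rw [Finset.mem_preimage, Finset.mem_map, rt, Finset.mem_filter]
    constructor
    · rintro ⟨z, hz, h⟩
      rcases z with z | z
      · exact absurd h (by simp [f])
      · have h4 : z = x := Sum.inr_injective h
        exact ⟨Finset.mem_univ _, h4 ▸ hz⟩
    · rintro ⟨_, hz⟩
      exact ⟨Sum.inr x, hz, rfl⟩
  rw [h2, h3]

/-- Natural densities. -/
theorem GV_nat (kap : ℕ → ℝ) (h1 : kap 1 = 0) (I : Finset ℕ) (a : ℕ) :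
    GV (fun K b => ((K.card + b).factorial : ℝ) * kap (K.card + b)) I a =
      ((I.card + a).factorial : ℝ) * gg kap (I.card + a) := by
  have h2 : (I.disjSum (univ : Finset (Fin a))).card = I.card + a := by
    rw [Finset.card_disjSum, Finset.card_univ, Fintype.card_fin]
  rw [← h2, ← FR_nat kap h1]
  unfold GV
  refine FR_congr fun S _ _ => ?_
  rw [pre_left, pre_right]
  show ((S.toLeft.card + S.toRight.card).factorial : ℝ) * kap (S.toLeft.card + S.toRight.card) = _
  rw [Finset.card_toLeft_add_card_toRight]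

/-- The main series of the numbers `N K b` of the points of the support `K` and of the exponent
`|K| + b`. -/
noncomputable def Mser (d : ℕ) (c : ℕ → ℕ) (n : ℕ) (N : Finset ℕ → ℕ → ℝ) (I : Finset ℕ) :
    PowerSeries ℝ :=
  (∑ P ∈ Dj I, (∏ K ∈ P, -∑ b ∈ range (d + 1), PowerSeries.C (N K b) * X ^ b) *
    ∏ i ∈ I \ P.biUnion id, PowerSeries.C (c i : ℝ)) *
      (ex n 1 * ∏ b ∈ Icc 1 d, ex (-N ∅ b) b)

private theorem deriv_prod {α : Type} [DecidableEq α] (s : Finset α) (f : α → PowerSeries ℝ) :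
    d⁄dX ℝ (∏ x ∈ s, f x) = ∑ x ∈ s, d⁄dX ℝ (f x) * ∏ y ∈ s.erase x, f y := by
  induction s using Finset.induction_on with
  | empty => simp
  | insert a s ha ih =>
    rw [Finset.prod_insert ha, Derivation.leibniz, ih, Finset.sum_insert ha, Finset.erase_insert ha,
      smul_eq_mul, smul_eq_mul, Finset.mul_sum, add_comm, mul_comm (∏ x ∈ s, f x)]
    congr 1
    refine Finset.sum_congr rfl fun x hx => ?_
    have hax : a ≠ x := fun h => ha (h ▸ hx)
    rw [Finset.erase_insert_of_ne hax, Finset.prod_insert fun h => ha (Finset.mem_of_mem_erase h)]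
    ring

private theorem deriv_log {α : Type} [DecidableEq α] (s : Finset α) (f u : α → PowerSeries ℝ)
    (h : ∀ x ∈ s, d⁄dX ℝ (f x) = u x * f x) : d⁄dX ℝ (∏ x ∈ s, f x) = (∑ x ∈ s, u x) * ∏ x ∈ s, f x := by
  rw [deriv_prod, Finset.sum_mul]
  refine Finset.sum_congr rfl fun x hx => ?_
  rw [h x hx, mul_assoc, Finset.mul_prod_erase s f hx]

private theorem deriv_ex (a : ℝ) (b : ℕ) (hb : 1 ≤ b) :
    d⁄dX ℝ (ex a b) = PowerSeries.C (a * b) * X ^ (b - 1) * ex a b := by
  ext D
  rw [coeff_derivative, mul_assoc, PowerSeries.coeff_C_mul, PowerSeries.coeff_X_pow_mul', ex,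
    PowerSeries.coeff_mk, PowerSeries.coeff_mk]
  by_cases h1 : b ∣ D + 1
  · obtain ⟨k, hk⟩ := h1
    have hk1 : 1 ≤ k := by
      rcases k with _ | k
      · simp at hk
      · omega
    obtain ⟨k, rfl⟩ : ∃ k', k = k' + 1 := ⟨k - 1, by omega⟩
    have h2 : b - 1 ≤ D := by
      have : b ≤ D + 1 := Nat.le_of_dvd (by omega) ⟨k + 1, hk⟩
      omega
    have h3 : D - (b - 1) = b * k := by
      have : b * (k + 1) = b * k + b := by ring
      omega
    have h4 : D + 1 = b * (k + 1) := hk
    have h5 : ((D : ℝ) + 1) = b * ((k : ℝ) + 1) := by exact_mod_cast h4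
    rw [if_pos ⟨k + 1, hk⟩, if_pos h2, h3, if_pos (dvd_mul_right _ _), h4,
      Nat.mul_div_cancel_left _ (by omega), Nat.mul_div_cancel_left _ (by omega), h5, Nat.factorial_succ,
      pow_succ]
    have h6 : ((k : ℝ) + 1) ≠ 0 := Nat.cast_add_one_ne_zero k
    push_cast
    field_simp
  · rw [if_neg h1, zero_mul]
    split_ifs with h2 h3
    · exact absurd ((Nat.dvd_add_right (dvd_refl b)).2 h3) (by
        have : b + (D - (b - 1)) = D + 1 := by omega
        rw [this]
        exact h1)
    · rw [mul_zero]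
    · rw [mul_zero]

/-- the derivatives of the series of a support -/
private noncomputable def TT (d : ℕ) (N : Finset ℕ → ℕ → ℝ) (K : Finset ℕ) : PowerSeries ℝ :=
  ∑ b ∈ range d, PowerSeries.C (((b : ℝ) + 1) * N K (b + 1)) * X ^ b

private theorem deriv_A (d : ℕ) (N : Finset ℕ → ℕ → ℝ) (K : Finset ℕ) :
    d⁄dX ℝ (-∑ b ∈ range (d + 1), PowerSeries.C (N K b) * X ^ b) = -TT d N K := by
  rw [map_neg, map_sum, TT, Finset.sum_range_succ']
  have h1 : ∀ b : ℕ, d⁄dX ℝ (PowerSeries.C (N K (b + 1)) * X ^ (b + 1)) =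
      PowerSeries.C (((b : ℝ) + 1) * N K (b + 1)) * X ^ b := by
    intro b
    ext D
    rw [coeff_derivative, PowerSeries.coeff_C_mul, PowerSeries.coeff_C_mul, PowerSeries.coeff_X_pow,
      PowerSeries.coeff_X_pow]
    by_cases h : D = b
    · subst h
      simp
      ring
    · rw [if_neg (by omega), if_neg h]
      simp
  rw [Finset.sum_congr rfl fun b _ => h1 b]
  simp

private noncomputable def FI (d : ℕ) (c : ℕ → ℕ) (N : Finset ℕ → ℕ → ℝ) (I : Finset ℕ) : PowerSeries ℝ :=
  ∑ P ∈ Dj I, (∏ K ∈ P, -∑ b ∈ range (d + 1), PowerSeries.C (N K b) * X ^ b) *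
    ∏ i ∈ I \ P.biUnion id, PowerSeries.C (c i : ℝ)

private theorem deriv_FI (d : ℕ) (c : ℕ → ℕ) (N : Finset ℕ → ℕ → ℝ) (I : Finset ℕ) :
    d⁄dX ℝ (FI d c N I) = ∑ K ∈ I.powerset.erase ∅, -TT d N K * FI d c N (I \ K) := by
  have h1 : ∀ P ∈ Dj I, d⁄dX ℝ ((∏ K ∈ P, -∑ b ∈ range (d + 1), PowerSeries.C (N K b) * X ^ b) *
      ∏ i ∈ I \ P.biUnion id, PowerSeries.C (c i : ℝ)) =
      ∑ K ∈ P, (fun (K : Finset ℕ) (Q : Finset (Finset ℕ)) => -TT d N K *
        ((∏ K ∈ Q, -∑ b ∈ range (d + 1), PowerSeries.C (N K b) * X ^ b) *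
          ∏ i ∈ (I \ K) \ Q.biUnion id, PowerSeries.C (c i : ℝ))) K (P.erase K) := by
    intro P _
    have h2 : d⁄dX ℝ (∏ i ∈ I \ P.biUnion id, PowerSeries.C (c i : ℝ)) = 0 := by
      rw [← map_prod, derivative_C]
    rw [Derivation.leibniz, h2, smul_zero, zero_add, deriv_prod, smul_eq_mul, Finset.mul_sum]
    refine Finset.sum_congr rfl fun K hK => ?_
    dsimp only
    have h3 : (I \ K) \ (P.erase K).biUnion id = I \ P.biUnion id := by
      rw [sdiff_sdiff]
      congr 1
      have h4 : P.biUnion id = (insert K (P.erase K)).biUnion id := by rw [Finset.insert_erase hK]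
      rw [h4, Finset.biUnion_insert]
      rfl
    rw [deriv_A, h3]
    ring
  unfold FI
  rw [map_sum, Finset.sum_congr rfl h1, sum_Dj_mem I (fun (K : Finset ℕ) (Q : Finset (Finset ℕ)) =>
    -TT d N K * ((∏ K ∈ Q, -∑ b ∈ range (d + 1), PowerSeries.C (N K b) * X ^ b) *
      ∏ i ∈ (I \ K) \ Q.biUnion id, PowerSeries.C (c i : ℝ)))]
  refine Finset.sum_congr rfl fun K _ => ?_
  rw [← Finset.mul_sum]

private theorem deriv_Mser (d : ℕ) (c : ℕ → ℕ) (n : ℕ) (N : Finset ℕ → ℕ → ℝ) (I : Finset ℕ) :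
    d⁄dX ℝ (Mser d c n N I) = PowerSeries.C (n : ℝ) * Mser d c n N I -
      ∑ K ∈ I.powerset, TT d N K * Mser d c n N (I \ K) := by
  have hM : ∀ I, Mser d c n N I = FI d c N I * (ex n 1 * ∏ b ∈ Icc 1 d, ex (-N ∅ b) b) := fun I => rfl
  have h1 : d⁄dX ℝ (ex n 1 * ∏ b ∈ Icc 1 d, ex (-N ∅ b) b) =
      (PowerSeries.C (n : ℝ) - TT d N ∅) * (ex n 1 * ∏ b ∈ Icc 1 d, ex (-N ∅ b) b) := by
    have h2 := deriv_log (Icc 1 d) (fun b => ex (-N ∅ b) b)
      (fun b => PowerSeries.C (-N ∅ b * b) * X ^ (b - 1)) fun b hb => by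
        exact deriv_ex _ _ (Finset.mem_Icc.1 hb).1
    have h3 : ∑ b ∈ Icc 1 d, (PowerSeries.C (-N ∅ b * b) * X ^ (b - 1) : PowerSeries ℝ) = -TT d N ∅ := by
      have h3' : Icc 1 d = Ico (0 + 1) (d + 1) := by
        ext b
        rw [Finset.mem_Icc, Finset.mem_Ico]
        omega
      rw [TT, ← Finset.sum_neg_distrib, Finset.range_eq_Ico, h3', ← Finset.sum_Ico_add' (fun b : ℕ =>
        (PowerSeries.C (-N ∅ b * b) * X ^ (b - 1) : PowerSeries ℝ)) 0 d 1]
      refine Finset.sum_congr rfl fun b _ => ?_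
      rw [Nat.add_sub_cancel, ← neg_mul, ← map_neg]
      congr 2
      push_cast
      ring
    have h4 := deriv_ex (n : ℝ) 1 le_rfl
    rw [h3] at h2
    rw [Derivation.leibniz, h2, h4, smul_eq_mul, smul_eq_mul]
    simp only [Nat.cast_one, mul_one, Nat.sub_self, pow_zero]
    ring
  have h5 : (∅ : Finset ℕ) ∈ I.powerset := Finset.empty_mem_powerset _
  rw [hM, Derivation.leibniz, h1, deriv_FI, smul_eq_mul, smul_eq_mul, ← Finset.add_sum_erase _ _ h5,
    Finset.sdiff_empty, hM, Finset.mul_sum]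
  have h6 : ∀ K ∈ I.powerset.erase ∅, (ex n 1 * ∏ b ∈ Icc 1 d, ex (-N ∅ b) b) *
      (-TT d N K * FI d c N (I \ K)) = -(TT d N K * Mser d c n N (I \ K)) := by
    intro K _
    rw [hM]
    ring
  rw [Finset.sum_congr rfl h6, Finset.sum_neg_distrib]
  ring

private theorem coeff_TT (d : ℕ) (N : Finset ℕ → ℕ → ℝ) (K : Finset ℕ) (M : PowerSeries ℝ) (a : ℕ)
    (ha : a + 1 ≤ d) : coeff a (TT d N K * M) =
      ∑ b ∈ range (a + 1), ((b : ℝ) + 1) * N K (b + 1) * coeff (a - b) M := by
  rw [TT, Finset.sum_mul, map_sum]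
  have h1 : ∀ b ∈ range d, coeff a (PowerSeries.C (((b : ℝ) + 1) * N K (b + 1)) * X ^ b * M) =
      if b ∈ range (a + 1) then ((b : ℝ) + 1) * N K (b + 1) * coeff (a - b) M else 0 := by
    intro b _
    rw [mul_assoc, PowerSeries.coeff_C_mul, PowerSeries.coeff_X_pow_mul']
    by_cases h : b ≤ a
    · rw [if_pos h, if_pos (Finset.mem_range.2 (by omega))]
    · rw [if_neg h, if_neg (fun h2 => h (by rw [Finset.mem_range] at h2; omega)), mul_zero]
  rw [Finset.sum_congr rfl h1, Finset.sum_ite_mem, Finset.inter_eq_right.2]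
  intro b hb
  rw [Finset.mem_range] at hb ⊢
  omega

private theorem rec_Mser (d : ℕ) (c : ℕ → ℕ) (n : ℕ) (N : Finset ℕ → ℕ → ℝ) (I : Finset ℕ) (a : ℕ)
    (ha : a + 1 ≤ d) : coeff (a + 1) (Mser d c n N I) * ((a : ℝ) + 1) =
      n * coeff a (Mser d c n N I) - ∑ K ∈ I.powerset, ∑ b ∈ range (a + 1),
        ((b : ℝ) + 1) * N K (b + 1) * coeff (a - b) (Mser d c n N (I \ K)) := by
  rw [← coeff_derivative, deriv_Mser, map_sub, PowerSeries.coeff_C_mul, map_sum]
  congr 1
  exact Finset.sum_congr rfl fun K _ => coeff_TT d N K _ a ha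

private theorem coeff_zero_Mser (d : ℕ) (c : ℕ → ℕ) (n : ℕ) (N : Finset ℕ → ℕ → ℝ) (I : Finset ℕ) :
    coeff 0 (Mser d c n N I) = ∑ P ∈ Dj I, (∏ K ∈ P, -N K 0) * ∏ i ∈ I \ P.biUnion id, (c i : ℝ) := by
  have h1 : ∀ (a : ℝ) (b : ℕ), constantCoeff (ex a b) = 1 := by
    intro a b
    rw [← PowerSeries.coeff_zero_eq_constantCoeff_apply, ex, PowerSeries.coeff_mk]
    simp
  rw [PowerSeries.coeff_zero_eq_constantCoeff_apply, Mser, map_mul, map_mul, map_prod, h1, map_sum]
  rw [Finset.prod_congr rfl fun b _ => h1 _ b, Finset.prod_const_one, one_mul, mul_one]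
  refine Finset.sum_congr rfl fun P _ => ?_
  rw [map_mul, map_prod, map_prod]
  congr 1
  · refine Finset.prod_congr rfl fun K _ => ?_
    rw [map_neg, map_sum, Finset.sum_range_succ']
    simp

private theorem sum_pow_disj {β : Type} [DecidableEq β] (I : Finset ℕ) (T : Finset β)
    (g : Finset ℕ → Finset β → ℝ) : ∑ B ∈ (I.disjSum T).powerset, g B.toLeft B.toRight =
      ∑ K ∈ I.powerset, ∑ b ∈ T.powerset, g K b := by
  rw [← Finset.sum_product' I.powerset T.powerset g]
  refine Finset.sum_bij' (fun B _ => (B.toLeft, B.toRight)) (fun x _ => x.1.disjSum x.2) ?_ ?_ ?_ ?_ ?_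
  · intro B hB
    rw [Finset.mem_powerset, Finset.subset_disjSum] at hB
    rw [Finset.mem_product, Finset.mem_powerset, Finset.mem_powerset]
    exact hB
  · rintro ⟨K, b⟩ h
    rw [Finset.mem_product, Finset.mem_powerset, Finset.mem_powerset] at h
    rw [Finset.mem_powerset]
    exact Finset.disjSum_mono h.1 h.2
  · intro B _
    exact Finset.toLeft_disjSum_toRight
  · rintro ⟨K, b⟩ _
    rw [Finset.toLeft_disjSum, Finset.toRight_disjSum]
  · intro B _
    rfl

private theorem key (d : ℕ) (c : ℕ → ℕ) (n : ℕ) (hn : 1 ≤ n) (N : Finset ℕ → ℕ → ℝ) (β : Type)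
    [DecidableEq β] (a : ℕ) : a ≤ d → ∀ I : Finset ℕ, (∀ i ∈ I, 1 ≤ c i) → ∀ T : Finset β, T.card = a →
      FR (fun S : Finset (ℕ ⊕ β) => (S.toRight.card.factorial : ℝ) * N S.toLeft S.toRight.card /
        ((∏ i ∈ S.toLeft, (c i : ℝ)) * (n : ℝ) ^ S.toRight.card)) (I.disjSum T) =
      coeff a (Mser d c n N I) * a.factorial / ((∏ i ∈ I, (c i : ℝ)) * (n : ℝ) ^ a) := by
  have hn0 : (n : ℝ) ≠ 0 := by
    have : n ≠ 0 := by omega
    exact_mod_cast this
  have hc0 : ∀ I : Finset ℕ, (∀ i ∈ I, 1 ≤ c i) → (∏ i ∈ I, (c i : ℝ)) ≠ 0 := by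
    intro I hc
    rw [Finset.prod_ne_zero_iff]
    intro i hi
    have := hc i hi
    have h : c i ≠ 0 := by omega
    exact_mod_cast h
  induction a using Nat.strong_induction_on with
  | _ a ih =>
    intro ha I hc T hT
    rcases a with _ | a
    · rw [Finset.card_eq_zero] at hT
      subst hT
      rw [Finset.disjSum_empty, FR_map, coeff_zero_Mser, Nat.factorial_zero, Nat.cast_one, mul_one, pow_zero,
        mul_one, Finset.sum_div]
      unfold FR
      refine Finset.sum_congr rfl fun P hP => ?_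
      rw [mem_Dj] at hP
      have h1 : ∀ K ∈ P, -(fun S : Finset ℕ => ((((S.map Function.Embedding.inl : Finset (ℕ ⊕ β)).toRight.card.factorial : ℕ) : ℝ) *
          N (S.map Function.Embedding.inl : Finset (ℕ ⊕ β)).toLeft (S.map Function.Embedding.inl : Finset (ℕ ⊕ β)).toRight.card /
          ((∏ i ∈ (S.map Function.Embedding.inl : Finset (ℕ ⊕ β)).toLeft, (c i : ℝ)) *
            (n : ℝ) ^ (S.map Function.Embedding.inl : Finset (ℕ ⊕ β)).toRight.card))) K =
          -N K 0 / ∏ i ∈ K, (c i : ℝ) := by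
        intro K _
        have e1 : (K.map Function.Embedding.inl : Finset (ℕ ⊕ β)).toRight = ∅ := by
          ext x
          simp
        have e2 : (K.map Function.Embedding.inl : Finset (ℕ ⊕ β)).toLeft = K := by
          ext x
          simp
        dsimp only
        rw [e1, e2]
        simp [neg_div]
      rw [Finset.prod_congr rfl h1, Finset.prod_div_distrib]
      have h2 : ∏ i ∈ I, (c i : ℝ) = (∏ K ∈ P, ∏ i ∈ K, (c i : ℝ)) * ∏ i ∈ I \ P.biUnion id, (c i : ℝ) := by
        have h3 : P.biUnion id ⊆ I := by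
          intro x hx
          rw [Finset.mem_biUnion] at hx
          obtain ⟨K, hK, hx⟩ := hx
          exact hP.1 K hK hx
        have h4 : ∏ i ∈ P.biUnion id, (c i : ℝ) = ∏ K ∈ P, ∏ i ∈ K, (c i : ℝ) :=
          Finset.prod_biUnion fun S hS T hT hST => hP.2.2 S hS T hT hST
        rw [← h4, mul_comm, Finset.prod_sdiff h3]
      have h5 : (∏ K ∈ P, ∏ i ∈ K, (c i : ℝ)) ≠ 0 := by
        rw [Finset.prod_ne_zero_iff]
        exact fun K hK => hc0 K fun i hi => hc i (hP.1 K hK hi)
      have h6 : (∏ i ∈ I \ P.biUnion id, (c i : ℝ)) ≠ 0 :=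
        hc0 _ fun i hi => hc i (Finset.mem_sdiff.1 hi).1
      rw [h2]
      field_simp
    · obtain ⟨t, ht⟩ : T.Nonempty := by
        rw [← Finset.card_pos, hT]
        omega
      obtain ⟨T', rfl, hT', hTc⟩ : ∃ T' : Finset β, T = insert t T' ∧ t ∉ T' ∧ T'.card = a :=
        ⟨T.erase t, (Finset.insert_erase ht).symm, Finset.notMem_erase _ _, by
          rw [Finset.card_erase_of_mem ht, hT]; rfl⟩
      have h1 : I.disjSum (insert t T') = insert (Sum.inr t) (I.disjSum T') := by
        ext x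
        rcases x with x | x <;> simp
      have h2 : (Sum.inr t : ℕ ⊕ β) ∉ I.disjSum T' := by
        rw [Finset.inr_mem_disjSum]
        exact hT'
      rw [h1, FR_insert _ _ _ h2, ih a (by omega) (by omega) I hc T' hTc]
      have h3 : ∀ B ∈ (I.disjSum T').powerset,
          (fun S : Finset (ℕ ⊕ β) => (S.toRight.card.factorial : ℝ) * N S.toLeft S.toRight.card /
            ((∏ i ∈ S.toLeft, (c i : ℝ)) * (n : ℝ) ^ S.toRight.card)) (insert (Sum.inr t) B) *
          FR (fun S : Finset (ℕ ⊕ β) => (S.toRight.card.factorial : ℝ) * N S.toLeft S.toRight.card /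
            ((∏ i ∈ S.toLeft, (c i : ℝ)) * (n : ℝ) ^ S.toRight.card)) (I.disjSum T' \ B) =
          (fun (K : Finset ℕ) (b : Finset β) => (((b.card + 1).factorial : ℝ) * N K (b.card + 1) /
            ((∏ i ∈ K, (c i : ℝ)) * (n : ℝ) ^ (b.card + 1))) *
            (coeff (a - b.card) (Mser d c n N (I \ K)) * (a - b.card).factorial /
              ((∏ i ∈ I \ K, (c i : ℝ)) * (n : ℝ) ^ (a - b.card)))) B.toLeft B.toRight := by
        intro B hB
        rw [Finset.mem_powerset, Finset.subset_disjSum] at hB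
        have e1 : (I.disjSum T' \ B) = (I \ B.toLeft).disjSum (T' \ B.toRight) := by
          ext x
          rcases x with x | x <;> simp
        have e2 : t ∉ B.toRight := fun h => hT' (hB.2 h)
        have e3 : (T' \ B.toRight).card = a - B.toRight.card := by
          rw [Finset.card_sdiff_of_subset hB.2, hTc]
        rw [e1, ih (a - B.toRight.card) (by omega) (by omega) _
          (fun i hi => hc i (Finset.mem_sdiff.1 hi).1) _ e3]
        dsimp only
        rw [Finset.toLeft_insert_inr, Finset.toRight_insert_inr, Finset.card_insert_of_notMem e2]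
      rw [Finset.sum_congr rfl h3, sum_pow_disj I T' (fun (K : Finset ℕ) (b : Finset β) =>
        (((b.card + 1).factorial : ℝ) * N K (b.card + 1) /
            ((∏ i ∈ K, (c i : ℝ)) * (n : ℝ) ^ (b.card + 1))) *
            (coeff (a - b.card) (Mser d c n N (I \ K)) * (a - b.card).factorial /
              ((∏ i ∈ I \ K, (c i : ℝ)) * (n : ℝ) ^ (a - b.card))))]
      have hrec := rec_Mser d c n N I a ha
      have ha1 : ((a : ℝ) + 1) ≠ 0 := Nat.cast_add_one_ne_zero a
      have hcI := hc0 I hc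
      have h4 : ∀ K ∈ I.powerset, ∑ b ∈ T'.powerset, (((b.card + 1).factorial : ℝ) * N K (b.card + 1) /
            ((∏ i ∈ K, (c i : ℝ)) * (n : ℝ) ^ (b.card + 1))) *
            (coeff (a - b.card) (Mser d c n N (I \ K)) * (a - b.card).factorial /
              ((∏ i ∈ I \ K, (c i : ℝ)) * (n : ℝ) ^ (a - b.card))) =
          (a.factorial : ℝ) / ((∏ i ∈ I, (c i : ℝ)) * (n : ℝ) ^ (a + 1)) * ∑ b ∈ range (a + 1),
            ((b : ℝ) + 1) * N K (b + 1) * coeff (a - b) (Mser d c n N (I \ K)) := by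
        intro K hK
        rw [Finset.mem_powerset] at hK
        rw [Finset.sum_powerset_apply_card (fun b : ℕ => (((b + 1).factorial : ℝ) * N K (b + 1) /
            ((∏ i ∈ K, (c i : ℝ)) * (n : ℝ) ^ (b + 1))) *
            (coeff (a - b) (Mser d c n N (I \ K)) * (a - b).factorial /
              ((∏ i ∈ I \ K, (c i : ℝ)) * (n : ℝ) ^ (a - b)))), hTc, Finset.mul_sum]
        refine Finset.sum_congr rfl fun b hb => ?_
        rw [Finset.mem_range, Nat.lt_succ_iff] at hb
        have e1 : (a.choose b : ℝ) * (b.factorial : ℝ) * ((a - b).factorial : ℝ) = (a.factorial : ℝ) := by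
          exact_mod_cast Nat.choose_mul_factorial_mul_factorial hb
        have e2 : ∏ i ∈ I, (c i : ℝ) = (∏ i ∈ K, (c i : ℝ)) * ∏ i ∈ I \ K, (c i : ℝ) := by
          rw [mul_comm, Finset.prod_sdiff hK]
        have e3 : (n : ℝ) ^ (a + 1) = (n : ℝ) ^ (b + 1) * (n : ℝ) ^ (a - b) := by
          rw [← pow_add]
          congr 1
          omega
        have e4 : (∏ i ∈ K, (c i : ℝ)) ≠ 0 := hc0 K fun i hi => hc i (hK hi)
        have e5 : (∏ i ∈ I \ K, (c i : ℝ)) ≠ 0 := hc0 _ fun i hi => hc i (Finset.mem_sdiff.1 hi).1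
        have e6 : (n : ℝ) ^ (b + 1) ≠ 0 := pow_ne_zero _ hn0
        have e7 : (n : ℝ) ^ (a - b) ≠ 0 := pow_ne_zero _ hn0
        rw [nsmul_eq_mul, e2, e3, ← e1, Nat.factorial_succ, Nat.cast_mul, Nat.cast_succ]
        field_simp
      rw [Finset.sum_congr rfl h4, ← Finset.mul_sum]
      have h5 : ∑ K ∈ I.powerset, ∑ b ∈ range (a + 1),
          ((b : ℝ) + 1) * N K (b + 1) * coeff (a - b) (Mser d c n N (I \ K)) =
          n * coeff a (Mser d c n N I) - coeff (a + 1) (Mser d c n N I) * ((a : ℝ) + 1) := by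
        rw [hrec]
        ring
      rw [h5, Nat.factorial_succ, Nat.cast_mul, Nat.cast_succ, pow_succ]
      field_simp
      ring

theorem GV_series (d : ℕ) (c : ℕ → ℕ) (n : ℕ) (hn : 1 ≤ n) (N : Finset ℕ → ℕ → ℝ) (I : Finset ℕ)
    (hc : ∀ i ∈ I, 1 ≤ c i) (a : ℕ) (ha : a ≤ d) :
    coeff a (Mser d c n N I) = (∏ i ∈ I, (c i : ℝ)) * (n : ℝ) ^ a / a.factorial *
      GV (fun K b => (b.factorial : ℝ) * N K b / ((∏ i ∈ K, (c i : ℝ)) * (n : ℝ) ^ b)) I a := by
  have h1 := key d c n hn N (Fin a) a ha I hc univ (by rw [Finset.card_univ, Fintype.card_fin])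
  have h2 : GV (fun K b => (b.factorial : ℝ) * N K b / ((∏ i ∈ K, (c i : ℝ)) * (n : ℝ) ^ b)) I a =
      coeff a (Mser d c n N I) * a.factorial / ((∏ i ∈ I, (c i : ℝ)) * (n : ℝ) ^ a) := by
    rw [← h1]
    unfold GV
    refine FR_congr fun S _ _ => ?_
    rw [pre_left, pre_right]
  have hn0 : (n : ℝ) ≠ 0 := by
    have : n ≠ 0 := by omega
    exact_mod_cast this
  have hc0 : (∏ i ∈ I, (c i : ℝ)) ≠ 0 := by
    rw [Finset.prod_ne_zero_iff]
    intro i hi
    have := hc i hi
    have h : c i ≠ 0 := by omega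
    exact_mod_cast h
  have h3 : (a.factorial : ℝ) ≠ 0 := by exact_mod_cast a.factorial_ne_zero
  rw [h2]
  field_simp

end Pool.Agent.GD.VT
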