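import Pool.Agent.GD.Cls
import Pool.Agent.GD.VT.Ty

/-!
# General d, VT: the factors of the summands of `vd`

`clK P j`: the cluster kinds of the level `j`; `us j k` = the support of the sum `u` of the members (without
the creation block).  The factor of a cluster is the product of the factors of its members as ordinary
points and of `1 - t^trx` if its creation block is in `I'` and `I'` without it is disjoint from `us`.
-/

set_option autoImplicit false

namespace Pool.Agent.GD.VT

open Finset PowerSeries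

variable (P : Par)

open Classical in
/-- The types of the clusters (a finite set which contains all allowed ones). -/
noncomputable def ctf (d e i j : ℕ) : Finset CT :=
  (((range (d + 1) ×ˢ (range j).powerset).image fun x => CT.pl x.1 x.2) ∪
    ((range j).powerset.image CT.b0) ∪ ((range (d + 1)).image CT.br)).filter fun τ => τ.Ok d e i j

theorem mem_ctf {d e i j : ℕ} (hij : i < j) (hj : j ≤ d) (τ : CT) :
    τ ∈ ctf d e i j ↔ τ.Ok d e i j := by
  classical
  unfold ctf
  rw [mem_filter, and_iff_right_iff_imp]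
  intro h
  have hS : ∀ S : Finset ℕ, S ⊆ Ico (i + 1) j → S ⊆ range j := by
    intro S hS x hx
    have := mem_Ico.1 (hS hx)
    exact mem_range.2 this.2
  cases τ with
  | pl k S =>
    obtain ⟨_, h2, h3, _⟩ := h
    have h4 : (d - i - 1) / (e - 1) ≤ d - i - 1 := Nat.div_le_self _ _
    refine mem_union_left _ (mem_union_left _ (mem_image.2 ⟨(k, S), ?_, rfl⟩))
    exact mem_product.2 ⟨mem_range.2 (by show k < d + 1; omega), mem_powerset.2 (hS S h3)⟩
  | b0 S =>
    obtain ⟨_, h3, _⟩ := h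
    exact mem_union_left _ (mem_union_right _ (mem_image.2 ⟨S, mem_powerset.2 (hS S h3), rfl⟩))
  | br r =>
    obtain ⟨_, h2⟩ := h
    exact mem_union_right _ (mem_image.2 ⟨r, mem_range.2 (by omega), rfl⟩)

/-- The cluster kinds of the level `j`. -/
noncomputable def clK (j : ℕ) : Finset Kd :=
  (range j).biUnion fun i => (ctf P.d P.e i j).image fun τ => τ.kd P.d P.e i j

/-- The creation block, the support of the sum and the trace exponent of a cluster. -/
def cb : Kd → ℕ
  | .ord _ _ => 0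
  | .cl _ _ i _ => i

def us (j : ℕ) : Kd → Finset ℕ
  | .ord _ _ => ∅
  | .cl _ _ i As => (range j).erase i \ inter As

def tx : Kd → ℕ
  | .ord _ _ => 1
  | .cl e dl _ As => trx e dl As.length

private lemma mem_inter {As : List (Finset ℕ)} (h : As ≠ []) (x : ℕ) :
    x ∈ inter As ↔ ∀ A ∈ As, x ∈ A := by
  unfold inter
  rw [mem_filter, and_iff_right_iff_imp]
  intro hx
  cases As with
  | nil => exact absurd rfl h
  | cons A As => exact hx A (List.mem_cons_self)

/-- The members of a cluster. -/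
private def Mem (e i j : ℕ) (A : Finset ℕ) : Prop := A ⊆ (range j).erase i ∧ (range j \ A).card ≤ e

private lemma mem_sdiff_bd {e i j : ℕ} (he : 1 ≤ e) {S : Finset ℕ} (hS : S.card ≤ e - 1) :
    Mem e i j ((range j).erase i \ S) := by
  refine ⟨sdiff_subset, ?_⟩
  have h1 : range j \ ((range j).erase i \ S) ⊆ insert i S := by
    intro x hx
    rw [mem_sdiff, mem_sdiff, mem_erase] at hx
    rw [mem_insert]
    by_cases h1 : x = i
    · exact Or.inl h1
    · right
      by_contra h2
      exact hx.2 ⟨⟨h1, hx.1⟩, h2⟩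
  have h2 := card_le_card h1
  have h3 := card_insert_le i S
  omega

private lemma mbs_ne {i j k : ℕ} {S : Finset ℕ} : mbs i j k S ≠ [] := by
  unfold mbs
  split_ifs <;> simp

private lemma mem_mbs {e i j k : ℕ} (he : 1 ≤ e) {S : Finset ℕ} (hS : S.card ≤ e - 1) :
    ∀ A ∈ mbs i j k S, Mem e i j A := by
  intro A hA
  unfold mbs at hA
  split_ifs at hA
  · rw [List.mem_singleton] at hA
    rw [hA]
    exact mem_sdiff_bd he hS
  · rcases List.mem_cons.1 hA with h | h
    · have h1 : A = (range j).erase i \ ∅ := by rw [h, sdiff_empty]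
      rw [h1]
      exact mem_sdiff_bd he (by simp)
    · rw [List.eq_of_mem_replicate h]
      exact mem_sdiff_bd he hS

private lemma mem_mbr {e i j k r : ℕ} (he : 1 ≤ e) : ∀ A ∈ mbr i j k e r, Mem e i j A := by
  intro A hA
  unfold mbr at hA
  obtain ⟨s, _, rfl⟩ := List.mem_map.1 hA
  refine mem_sdiff_bd he ?_
  refine (card_le_card inter_subset_left).trans ?_
  rw [Nat.card_Ico, Nat.add_mul, Nat.one_mul, Nat.add_sub_cancel_left]

/-- The shape of a cluster kind. -/
private lemma kd_mem {d e i j : ℕ} (he : 1 ≤ e) {τ : CT} (h : τ.Ok d e i j) :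
    ∃ dl As, τ.kd d e i j = .cl e dl i As ∧ ∀ A ∈ As, Mem e i j A := by
  cases τ with
  | pl k S => exact ⟨_, _, rfl, mem_mbs he h.2.2.2⟩
  | b0 S => exact ⟨_, _, rfl, mem_mbs he (h.2.2.trans (by omega))⟩
  | br r => exact ⟨_, _, rfl, mem_mbr he⟩

/-- The objects which occur. -/
private def Gd (d e j : ℕ) (K : Finset Kd) (k : Kd) : Prop :=
  (∃ x A, k = .ord x A ∧ 1 ≤ x ∧ x ≤ d ∧ A ⊆ range j) ∨
    (∃ dl i As, k = .cl e dl i As ∧ k ∈ K ∧ ∀ A ∈ As, Mem e i j A)

private lemma mem_clK {j : ℕ} (hj : j ≤ P.d) {k : Kd} :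
    k ∈ clK P j ↔ ∃ i < j, ∃ τ : CT, τ.Ok P.d P.e i j ∧ k = τ.kd P.d P.e i j := by
  unfold clK
  rw [mem_biUnion]
  constructor
  · rintro ⟨i, hi, hk⟩
    obtain ⟨τ, hτ, rfl⟩ := mem_image.1 hk
    have hi' := mem_range.1 hi
    exact ⟨i, hi', τ, (mem_ctf hi' hj τ).1 hτ, rfl⟩
  · rintro ⟨i, hi, τ, hτ, rfl⟩
    exact ⟨i, mem_range.2 hi, mem_image.2 ⟨τ, (mem_ctf hi hj τ).2 hτ, rfl⟩⟩

private lemma gd_of_cls (he : 2 ≤ P.e) {j : ℕ} (hj : j ≤ P.d) {n : ℕ} {ms : Multiset Kd}
    (h : Cls P j n ms) : ∀ k ∈ ms, Gd P.d P.e j (clK P j) k := by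
  intro k hk
  rcases h.mem k hk with ⟨x, A, rfl, h1, h2, h3, _⟩ | ⟨i, hi, τ, hτ, rfl⟩
  · exact Or.inl ⟨x, A, rfl, by omega, h2.le, h3⟩
  · right
    obtain ⟨dl, As, h1, h2⟩ := kd_mem (j := j) (by omega : 1 ≤ P.e) hτ
    exact ⟨dl, i, As, h1, (mem_clK P hj).2 ⟨i, hi, τ, hτ, rfl⟩, h2⟩

/-- The product of the factors of the points. -/
private noncomputable def pf (d j : ℕ) (I' : Finset ℕ) (s : Multiset (ℕ × Finset ℕ)) :
    PowerSeries ℝ :=
  ∏ K ∈ (range j).powerset, if Disjoint K I' then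
    ∏ x ∈ Icc 1 d, (1 - X ^ x) ^ s.count (x, range j \ K) else 1

private lemma pf_zero (d j : ℕ) (I' : Finset ℕ) : pf d j I' 0 = 1 := by
  unfold pf
  refine prod_eq_one fun K _ => ?_
  split_ifs
  · exact prod_eq_one fun x _ => by rw [Multiset.count_zero, pow_zero]
  · rfl

private lemma pf_add (d j : ℕ) (I' : Finset ℕ) (s t : Multiset (ℕ × Finset ℕ)) :
    pf d j I' (s + t) = pf d j I' s * pf d j I' t := by
  unfold pf
  rw [← prod_mul_distrib]
  refine prod_congr rfl fun K _ => ?_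
  split_ifs
  · rw [← prod_mul_distrib]
    refine prod_congr rfl fun x _ => ?_
    rw [Multiset.count_add, pow_add]
  · rw [one_mul]

private lemma pf_single {d j : ℕ} {I' : Finset ℕ} (hI' : I' ⊆ range j) {x : ℕ} {A : Finset ℕ}
    (hx : 1 ≤ x) (hxd : x ≤ d) (hA : A ⊆ range j) :
    pf d j I' {(x, A)} = if I' ⊆ A then 1 - X ^ x else 1 := by
  unfold pf
  have hAA : range j \ (range j \ A) = A := Finset.sdiff_sdiff_eq_self hA
  have hd : Disjoint (range j \ A) I' ↔ I' ⊆ A := by
    rw [disjoint_left]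
    constructor
    · intro h y hy
      by_contra h1
      exact h (mem_sdiff.2 ⟨hI' hy, h1⟩) hy
    · intro h y hy hy'
      exact (mem_sdiff.1 hy).2 (h hy')
  rw [prod_eq_single (range j \ A)]
  · rw [hAA]
    by_cases h : I' ⊆ A
    · rw [if_pos (hd.2 h), if_pos h, prod_eq_single x]
      · rw [Multiset.count_singleton_self, pow_one]
      · intro y _ hy
        rw [Multiset.count_singleton, if_neg, pow_zero]
        intro h1
        exact hy (congrArg Prod.fst h1)
      · intro h1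
        exact absurd (mem_Icc.2 ⟨hx, hxd⟩) h1
    · rw [if_neg (fun h1 => h (hd.1 h1)), if_neg h]
  · intro K hK hne
    split_ifs
    · refine prod_eq_one fun y _ => ?_
      rw [Multiset.count_singleton, if_neg, pow_zero]
      intro h1
      apply hne
      have h2 : range j \ K = A := congrArg Prod.snd h1
      rw [← h2, Finset.sdiff_sdiff_eq_self (mem_powerset.1 hK)]
    · rfl
  · intro h1
    exact absurd (mem_powerset.2 sdiff_subset) h1

private lemma pf_list {d j : ℕ} {I' : Finset ℕ} (hI' : I' ⊆ range j) {e : ℕ} (he : 1 ≤ e)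
    (hed : e ≤ d) (As : List (Finset ℕ)) (hAs : ∀ A ∈ As, A ⊆ range j) :
    pf d j I' ((As.map fun A => (e, A) : List (ℕ × Finset ℕ)) : Multiset (ℕ × Finset ℕ)) =
      (As.map fun A => if I' ⊆ A then 1 - X ^ e else (1 : PowerSeries ℝ)).prod := by
  induction As with
  | nil => exact pf_zero d j I'
  | cons A As ih =>
    rw [List.map_cons, List.map_cons, List.prod_cons, ← Multiset.cons_coe,
      ← Multiset.singleton_add, pf_add, pf_single hI' he hed (hAs A (List.mem_cons_self)),
      ih fun B hB => hAs B (List.mem_cons_of_mem _ hB)]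

/-- The product of the factors of the clusters. -/
private noncomputable def cf (Ks : Finset Kd) (j : ℕ) (I' : Finset ℕ) (ms : Multiset Kd) :
    PowerSeries ℝ :=
  ∏ k ∈ Ks, if cb k ∈ I' ∧ Disjoint (us j k) (I'.erase (cb k)) then
    (1 - X ^ tx k) ^ ms.count k else 1

private lemma cf_zero (Ks : Finset Kd) (j : ℕ) (I' : Finset ℕ) : cf Ks j I' 0 = 1 := by
  unfold cf
  refine prod_eq_one fun K _ => ?_
  split_ifs
  · rw [Multiset.count_zero, pow_zero]
  · rfl

private lemma cf_add (Ks : Finset Kd) (j : ℕ) (I' : Finset ℕ) (s t : Multiset Kd) :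
    cf Ks j I' (s + t) = cf Ks j I' s * cf Ks j I' t := by
  unfold cf
  rw [← prod_mul_distrib]
  refine prod_congr rfl fun K _ => ?_
  split_ifs
  · rw [Multiset.count_add, pow_add]
  · rw [one_mul]

private lemma cf_single (Ks : Finset Kd) (j : ℕ) (I' : Finset ℕ) (k : Kd) :
    cf Ks j I' {k} = if k ∈ Ks ∧ cb k ∈ I' ∧ Disjoint (us j k) (I'.erase (cb k)) then
      1 - X ^ tx k else 1 := by
  unfold cf
  by_cases hk : k ∈ Ks
  · rw [prod_eq_single_of_mem k hk]
    · rw [Multiset.count_singleton_self, pow_one]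
      by_cases h : cb k ∈ I' ∧ Disjoint (us j k) (I'.erase (cb k))
      · rw [if_pos h, if_pos ⟨hk, h⟩]
      · rw [if_neg h, if_neg fun h1 => h h1.2]
    · intro y _ hy
      split_ifs
      · rw [Multiset.count_singleton, if_neg hy, pow_zero]
      · rfl
  · rw [if_neg fun h => hk h.1]
    refine prod_eq_one fun y hy => ?_
    split_ifs
    · rw [Multiset.count_singleton, if_neg, pow_zero]
      rintro rfl
      exact hk hy
    · rfl

private lemma map_ite (p : Prop) [Decidable p] (e : ℕ) :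
    PowerSeries.map (Int.castRingHom ℝ) (if p then 1 - X ^ e else 1) =
      if p then 1 - X ^ e else 1 := by
  split_ifs
  · rw [map_sub, map_one, map_pow, PowerSeries.map_X]
  · exact map_one _

private lemma single {d e j : ℕ} (he : 1 ≤ e) (hed : e ≤ d) {Ks : Finset Kd} {I' : Finset ℕ}
    (hI' : I' ⊆ range j) (hKs : ∀ x A, Kd.ord x A ∉ Ks) {k : Kd} (hk : Gd d e j Ks k) :
    PowerSeries.map (Int.castRingHom ℝ) (Kd.P I' k) = pf d j I' k.pts * cf Ks j I' {k} := by
  rcases hk with ⟨x, A, rfl, h1, h2, h3⟩ | ⟨dl, i, As, rfl, h1, h2⟩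
  · rw [cf_single, if_neg fun h => hKs x A h.1, mul_one]
    change PowerSeries.map (Int.castRingHom ℝ) (if I' ⊆ A then 1 - PowerSeries.X ^ x else 1) =
      pf d j I' {(x, A)}
    rw [pf_single hI' h1 h2 h3, map_ite]
  · have hsub : ∀ A ∈ As, A ⊆ range j := fun A hA => (h2 A hA).1.trans (erase_subset _ _)
    rw [cf_single]
    change PowerSeries.map (Int.castRingHom ℝ) (if i ∈ I' then
        (if I'.erase i ⊆ inter As then 1 - PowerSeries.X ^ trx e dl As.length else 1)
      else (As.map fun A => if I' ⊆ A then 1 - PowerSeries.X ^ e else (1 : PowerSeries ℤ)).prod) =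
      pf d j I' ((As.map fun A => (e, A) : List (ℕ × Finset ℕ)) : Multiset (ℕ × Finset ℕ)) *
        if Kd.cl e dl i As ∈ Ks ∧ i ∈ I' ∧ Disjoint ((range j).erase i \ inter As) (I'.erase i) then
          1 - X ^ trx e dl As.length else 1
    rw [pf_list hI' he hed As hsub]
    have hd : Disjoint ((range j).erase i \ inter As) (I'.erase i) ↔ I'.erase i ⊆ inter As := by
      rw [disjoint_left]
      constructor
      · intro h y hy
        by_contra h1
        exact h (mem_sdiff.2 ⟨erase_subset_erase _ hI' hy, h1⟩) hy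
      · intro h y hy hy'
        exact (mem_sdiff.1 hy).2 (h hy')
    by_cases hi : i ∈ I'
    · rw [if_pos hi, map_ite]
      have h3 : (As.map fun A => if I' ⊆ A then 1 - X ^ e else (1 : PowerSeries ℝ)).prod = 1 := by
        apply List.prod_eq_one
        intro y hy
        obtain ⟨A, hA, rfl⟩ := List.mem_map.1 hy
        rw [if_neg]
        intro h4
        exact (mem_erase.1 ((h2 A hA).1 (h4 hi))).1 rfl
      rw [h3, one_mul]
      by_cases h4 : I'.erase i ⊆ inter As
      · rw [if_pos h4, if_pos ⟨h1, hi, hd.2 h4⟩]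
      · rw [if_neg h4, if_neg fun h => h4 (hd.1 h.2.2)]
    · rw [if_neg hi, if_neg fun h => hi h.2.1, mul_one, map_list_prod, List.map_map]
      congr 1
      refine List.map_congr_left fun A _ => ?_
      exact map_ite _ _

private lemma ord_notMem_clK {j : ℕ} (x : ℕ) (A : Finset ℕ) : Kd.ord x A ∉ clK P j := by
  unfold clK
  rw [mem_biUnion]
  rintro ⟨i, _, hk⟩
  obtain ⟨τ, _, h⟩ := mem_image.1 hk
  cases τ <;> simp [CT.kd] at h

theorem fac (he : 2 ≤ P.e) (hed : P.e < P.d) {j : ℕ} (hj : j ≤ P.J) {n : ℕ} {ms : Multiset Kd}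
    (h : Cls P j n ms) {I' : Finset ℕ} (hI' : I' ⊆ range j) :
    PowerSeries.map (Int.castRingHom ℝ) ((ms.map (Kd.P I')).prod) =
      (∏ K ∈ (range j).powerset, if Disjoint K I' then
          ∏ x ∈ Icc 1 P.d, (1 - X ^ x) ^ npt ms x (range j \ K) else 1) *
        ∏ k ∈ clK P j, if cb k ∈ I' ∧ Disjoint (us j k) (I'.erase (cb k)) then
          (1 - X ^ tx k) ^ ms.count k else 1 := by
  have hJ : P.J = P.d - P.e := rfl
  have hg := gd_of_cls P he (by omega : j ≤ P.d) h
  change PowerSeries.map (Int.castRingHom ℝ) ((ms.map (Kd.P I')).prod) =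
    pf P.d j I' (ms.bind Kd.pts) * cf (clK P j) j I' ms
  clear h
  induction ms using Multiset.induction_on with
  | empty => rw [Multiset.map_zero, Multiset.prod_zero, map_one, Multiset.zero_bind, pf_zero,
      cf_zero, one_mul]
  | cons k ms ih =>
    rw [Multiset.map_cons, Multiset.prod_cons, map_mul, Multiset.cons_bind, pf_add,
      ← Multiset.singleton_add, cf_add, ih fun x hx => hg x (Multiset.mem_cons_of_mem hx),
      single (by omega) hed.le hI' (ord_notMem_clK P) (hg k (Multiset.mem_cons_self k ms))]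
    ring

private lemma length_mbs {i j k : ℕ} (hk : 1 ≤ k) (S : Finset ℕ) : (mbs i j k S).length = k := by
  unfold mbs
  split_ifs with h
  · rw [h]
    rfl
  · rw [List.length_cons, List.length_replicate]
    omega

private lemma us_mbs {i j k : ℕ} (S : Finset ℕ) : (range j).erase i \ inter (mbs i j k S) ⊆ S := by
  intro x hx
  rw [mem_sdiff, mem_inter mbs_ne] at hx
  by_contra h
  apply hx.2
  intro A hA
  unfold mbs at hA
  split_ifs at hA
  · rw [List.mem_singleton] at hA
    rw [hA]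
    exact mem_sdiff.2 ⟨hx.1, h⟩
  · rcases List.mem_cons.1 hA with h1 | h1
    · rw [h1]
      exact hx.1
    · rw [List.eq_of_mem_replicate h1]
      exact mem_sdiff.2 ⟨hx.1, h⟩

private lemma length_mbr {i j k e r : ℕ} : (mbr i j k e r).length = k := by
  unfold mbr
  rw [List.length_map, List.length_range]

private lemma us_mbr {i j k e r : ℕ} (hk : 1 ≤ k) :
    (range j).erase i \ inter (mbr i j k e r) ⊆ range r := by
  have hne : mbr i j k e r ≠ [] := by
    intro h
    have h1 := length_mbr (i := i) (j := j) (k := k) (e := e) (r := r)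
    rw [h, List.length_nil] at h1
    omega
  intro x hx
  rw [mem_sdiff, mem_inter hne] at hx
  by_contra h
  apply hx.2
  intro A hA
  unfold mbr at hA
  obtain ⟨s, _, rfl⟩ := List.mem_map.1 hA
  refine mem_sdiff.2 ⟨hx.1, fun h1 => h (Finset.mem_inter.1 h1).2⟩

private lemma exc_bd {d e i j : ℕ} (he : 2 ≤ e) (hj : j ≤ d - e) (hi : i < j) {τ : CT}
    (h : τ.Ok d e i j) :
    (us j (τ.kd d e i j)).card + 2 + τ.w e ≤ tx (τ.kd d e i j) := by
  cases τ with
  | pl k S =>
    obtain ⟨h1, h2, h3, h4⟩ := h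
    change ((range j).erase i \ inter (mbs i j k S)).card + 2 + (e - 1 - S.card) ≤
      (mbs i j k S).length * (e - 1) + 1 + 0
    rw [length_mbs (by omega)]
    have h5 := card_le_card (us_mbs (i := i) (j := j) (k := k) S)
    have h6 : 2 * (e - 1) ≤ k * (e - 1) := Nat.mul_le_mul_right _ h1
    omega
  | b0 S =>
    obtain ⟨h1, h3, h4⟩ := h
    change ((range j).erase i \ inter (mbs i j ((d - i - 1) / (e - 1)) S)).card + 2 +
      (e - 2 - S.card) ≤ (mbs i j ((d - i - 1) / (e - 1)) S).length * (e - 1) + 1 +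
        (d - i - 1) % (e - 1)
    have hk : 1 ≤ (d - i - 1) / (e - 1) := (Nat.one_le_div_iff (by omega)).2 (by omega)
    rw [length_mbs hk]
    have h5 := card_le_card (us_mbs (i := i) (j := j) (k := (d - i - 1) / (e - 1)) S)
    have h6 := Nat.div_add_mod (d - i - 1) (e - 1)
    rw [mul_comm] at h6
    omega
  | br r =>
    obtain ⟨h1, h2⟩ := h
    change ((range j).erase i \ inter (mbr i j ((d - i + r - 1) / (e - 1)) e r)).card + 2 + 0 ≤
      (mbr i j ((d - i + r - 1) / (e - 1)) e r).length * (e - 1) + 1 + (d - i + r - 1) % (e - 1)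
    have hk : 1 ≤ (d - i + r - 1) / (e - 1) := (Nat.one_le_div_iff (by omega)).2 (by omega)
    rw [length_mbr]
    have h5 := card_le_card (us_mbr (i := i) (j := j) (e := e) (r := r) hk)
    rw [card_range] at h5
    have h6 := Nat.div_add_mod (d - i + r - 1) (e - 1)
    rw [mul_comm] at h6
    omega

/-- The number of a cluster kind and the excess of its type. -/
theorem cl_bd (he : 2 ≤ P.e) (hed : P.e < P.d) {j : ℕ} (hj : j ≤ P.J) {k : Kd}
    (hk : k ∈ clK P j) : ∃ (w : ℕ) (C₀ : ℝ), 0 ≤ C₀ ∧ cb k ∉ us j k ∧ us j k ⊆ range j ∧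
      cb k < j ∧ 1 ≤ tx k ∧ (us j k).card + 2 + w ≤ tx k ∧
      ∀ n ms, Cls P j n ms → (ms.count k : ℝ) ≤ C₀ * (n : ℝ) ^ w := by
  have hJ : P.J = P.d - P.e := rfl
  obtain ⟨i, hi, τ, hτ, rfl⟩ := (mem_clK P (by omega : j ≤ P.d)).1 hk
  refine ⟨τ.w P.e, (τ.mm P : ℕ), Nat.cast_nonneg _, ?_, ?_, ?_, ?_, ?_, ?_⟩
  · cases τ <;> simp [CT.kd, cb, us]
  · cases τ <;> exact (sdiff_subset).trans (erase_subset _ _)
  · cases τ <;> exact hi
  · cases τ <;> simp only [CT.kd, tx, trx] <;> omega
  · exact exc_bd he (by omega) hi hτ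
  · intro n ms h
    exact_mod_cast h.cnt i hi τ hτ

private lemma npt_ne (he : 2 ≤ P.e) (hed : P.e < P.d) {j n : ℕ} {ms : Multiset Kd}
    (h : Cls P j n ms) {K : Finset ℕ} (hK : K ⊆ range j) {x : ℕ}
    (hx : npt ms x (range j \ K) ≠ 0) : K.card ≤ x ∧ x < P.d ∧ 2 ≤ x := by
  unfold npt at hx
  have h1 : (x, range j \ K) ∈ ms.bind Kd.pts := Multiset.count_ne_zero.1 hx
  obtain ⟨k, hk, hk'⟩ := Multiset.mem_bind.1 h1
  have hKK : range j \ (range j \ K) = K := Finset.sdiff_sdiff_eq_self hK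
  rcases h.mem k hk with ⟨y, A, rfl, h2, h3, h4, h5⟩ | ⟨i, hi, τ, hτ, rfl⟩
  · have h6 : (x, range j \ K) = (y, A) := Multiset.mem_singleton.1 hk'
    have h7 : x = y := congrArg Prod.fst h6
    have h8 : range j \ K = A := congrArg Prod.snd h6
    rw [← h8, hKK] at h5
    exact ⟨by omega, by omega, by omega⟩
  · obtain ⟨dl, As, h6, h7⟩ := kd_mem (j := j) (by omega : 1 ≤ P.e) hτ
    rw [h6] at hk'
    have h8 : (x, range j \ K) ∈ As.map fun A => (P.e, A) := Multiset.mem_coe.1 hk'
    obtain ⟨A, hA, h9⟩ := List.mem_map.1 h8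
    have h10 : P.e = x := congrArg Prod.fst h9
    have h11 : A = range j \ K := congrArg Prod.snd h9
    have h12 := (h7 A hA).2
    rw [h11, hKK] at h12
    exact ⟨by omega, by omega, by omega⟩

/-- The numbers of the points. -/
theorem npt_bd (he : 2 ≤ P.e) (hed : P.e < P.d) {j : ℕ} (hj : j ≤ P.J) (C₁ : ℝ) :
    ∃ C₀ : ℝ, 0 ≤ C₀ ∧ ∀ n, 1 ≤ n → ∀ ms, Cls P j n ms →
      (npt ms P.e (range j) : ℝ) ≤ C₁ * (n : ℝ) ^ P.e → ∀ K ⊆ range j, ∀ x,
        ((x < K.card ∨ P.d ≤ x ∨ x ≤ 1) → npt ms x (range j \ K) = 0) ∧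
          (K.card ≤ x → (npt ms x (range j \ K) : ℝ) ≤ C₀ * (n : ℝ) ^ (x - K.card)) := by
  let t : ℕ → Finset ℕ → ℝ := fun x K =>
    (|P.nat x K| + |P.eps j| + |(P.xp x K : ℝ)| + |(P.xm x K : ℝ)|) * P.cc K
  have ht : ∀ x K, 0 ≤ t x K := fun x K => by positivity
  refine ⟨|C₁| + ∑ x ∈ range P.d, ∑ K ∈ (range j).powerset, t x K,
    add_nonneg (abs_nonneg _) (sum_nonneg fun x _ => sum_nonneg fun K _ => ht x K), ?_⟩
  intro n hn ms h hC K hK x
  have hn1 : (1 : ℝ) ≤ (n : ℝ) := by exact_mod_cast hn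
  have hz : (x < K.card ∨ P.d ≤ x ∨ x ≤ 1) → npt ms x (range j \ K) = 0 := by
    intro h1
    by_contra h2
    obtain ⟨h3, h4, h5⟩ := npt_ne P he hed h hK h2
    omega
  refine ⟨hz, fun hKx => ?_⟩
  have hpow : 0 ≤ (n : ℝ) ^ (x - K.card) := by positivity
  have hsum : 0 ≤ ∑ x ∈ range P.d, ∑ K ∈ (range j).powerset, t x K :=
    sum_nonneg fun x _ => sum_nonneg fun K _ => ht x K
  by_cases h0 : P.d ≤ x ∨ x ≤ 1
  · rw [hz (Or.inr h0), Nat.cast_zero]
    exact mul_nonneg (add_nonneg (abs_nonneg _) hsum) hpow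
  push Not at h0
  have htle : t x K ≤ ∑ x ∈ range P.d, ∑ K ∈ (range j).powerset, t x K := by
    refine le_trans ?_ (single_le_sum (f := fun x => ∑ K ∈ (range j).powerset, t x K)
      (fun x _ => sum_nonneg fun K _ => ht x K) (mem_range.2 h0.1))
    exact single_le_sum (f := fun K => t x K) (fun K _ => ht x K) (mem_powerset.2 hK)
  have hfin : (npt ms x (range j \ K) : ℝ) ≤ t x K * (n : ℝ) ^ (x - K.card) →
      (npt ms x (range j \ K) : ℝ) ≤
        (|C₁| + ∑ x ∈ range P.d, ∑ K ∈ (range j).powerset, t x K) * (n : ℝ) ^ (x - K.card) := by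
    intro h1
    refine h1.trans (mul_le_mul_of_nonneg_right ?_ hpow)
    linarith [abs_nonneg C₁]
  have hKK : range j \ (range j \ K) = K := Finset.sdiff_sdiff_eq_self hK
  have hcc : (0 : ℝ) ≤ (P.cc K : ℝ) := Nat.cast_nonneg _
  rcases Nat.eq_or_lt_of_le hKx with h1 | h1
  · apply hfin
    rw [h1, Nat.sub_self, pow_zero, mul_one]
    have h2 := h.zero x (range j \ K) (by omega) h0.1 sdiff_subset (by rw [hKK]; exact h1)
    rw [hKK] at h2
    rw [← h1] at h2 ⊢
    rcases h2 with h2 | h2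
    · have h3 : (npt ms K.card (range j \ K) : ℝ) = (P.xp K.card K : ℝ) * P.cc K := by
        exact_mod_cast congrArg (fun q : ℚ => (q : ℝ)) h2
      rw [h3]
      refine mul_le_mul_of_nonneg_right ?_ hcc
      linarith [le_abs_self (P.xp K.card K : ℝ), abs_nonneg (P.nat K.card K), abs_nonneg (P.eps j),
        abs_nonneg (P.xm K.card K : ℝ)]
    · have h3 : (npt ms K.card (range j \ K) : ℝ) = (P.xm K.card K : ℝ) * P.cc K := by
        exact_mod_cast congrArg (fun q : ℚ => (q : ℝ)) h2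
      rw [h3]
      refine mul_le_mul_of_nonneg_right ?_ hcc
      linarith [le_abs_self (P.xm K.card K : ℝ), abs_nonneg (P.nat K.card K), abs_nonneg (P.eps j),
        abs_nonneg (P.xp K.card K : ℝ)]
  · by_cases h2 : x = P.e ∧ range j \ K = range j
    · have h3 : K = ∅ := by
        rw [← hKK, h2.2, sdiff_self]
        rfl
      rw [h2.1, h2.2, h3, card_empty, Nat.sub_zero]
      refine hC.trans (mul_le_mul_of_nonneg_right ?_ (by positivity))
      linarith [le_abs_self C₁]
    · apply hfin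
      have h3 := h.win x (range j \ K) (by omega) h0.1 sdiff_subset (by rw [hKK]; exact h1)
        (by rwa [not_and_or] at h2)
      rw [hKK] at h3
      have h4 := (abs_le.1 h3).2
      have h5 : (npt ms x (range j \ K) : ℝ) ≤
          (P.nat x K + P.eps j) * P.cc K * (n : ℝ) ^ (x - K.card) := by linarith
      refine h5.trans (mul_le_mul_of_nonneg_right (mul_le_mul_of_nonneg_right ?_ hcc) hpow)
      linarith [le_abs_self (P.nat x K), le_abs_self (P.eps j), abs_nonneg (P.xp x K : ℝ),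
        abs_nonneg (P.xm x K : ℝ)]

private lemma map_hs (N : ℕ) : PowerSeries.map (Int.castRingHom ℝ) (hs N) = hr N := by
  ext k
  simp [hs, hr]

private lemma hr_zero : hr 0 = 1 := by
  ext k
  cases k with
  | zero => simp [hr]
  | succ k => simp [hr, PowerSeries.coeff_one]

private lemma hr_sum (c : ℕ → ℕ) (s : Finset ℕ) : hr (∑ i ∈ s, c i) = ∏ i ∈ s, hr (c i) := by
  induction s using Finset.induction_on with
  | empty => rw [sum_empty, prod_empty, hr_zero]
  | insert a s ha ih => rw [sum_insert ha, prod_insert ha, hr_add, ih]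

theorem hs_fac (c : ℕ → ℕ) {j n : ℕ} (hn : ∑ i ∈ range j, c i ≤ n) {I' : Finset ℕ}
    (hI' : I' ⊆ range j) : PowerSeries.map (Int.castRingHom ℝ) (hs (n - ∑ i ∈ I', c i)) =
      hr (n - ∑ i ∈ range j, c i) * ∏ i ∈ range j, if Disjoint {i} I' then hr (c i) else 1 := by
  have h1 : ∏ i ∈ range j, (if Disjoint {i} I' then hr (c i) else 1) =
      hr (∑ i ∈ range j \ I', c i) := by
    rw [hr_sum, ← prod_filter]
    refine prod_congr ?_ fun _ _ => rfl
    ext i
    rw [mem_filter, mem_sdiff, disjoint_singleton_left]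
  have h2 := sum_sdiff (f := c) hI'
  rw [h1, ← hr_add, map_hs]
  congr 1
  omega

end Pool.Agent.GD.VT
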